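import Mathlib

set_option autoImplicit false

namespace Pool.Agent.Helper62.Amal

/-- A subgroup of countable index in a countable product of countable groups is dense in the
subgroup of all elements that are trivial on the first `k0` coordinates, for some `k0`. -/
theorem baire_coset {E : ℕ → Type} [∀ k, Group (E k)] [∀ k, Countable (E k)]
    (D : Subgroup (∀ k, E k))
    (hD : ∃ c : ℕ → (∀ k, E k), ∀ x, ∃ n, (c n)⁻¹ * x ∈ D) :
    ∃ k0 : ℕ, ∀ u : ∀ k, E k, (∀ k < k0, u k = 1) → ∀ m : ℕ, ∃ d ∈ D, ∀ k < m, d k = u k := by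
  classical
  obtain ⟨c, hc⟩ := hD
  let _ : ∀ k, TopologicalSpace (E k) := fun _ => ⊥
  have _ : ∀ k, DiscreteTopology (E k) := fun _ => ⟨rfl⟩
  have _ : ∀ k, PolishSpace (E k) := fun _ => inferInstance
  have _ : PolishSpace (∀ k, E k) := inferInstance
  have _ : BaireSpace (∀ k, E k) := inferInstance
  have hcyl : ∀ (x : ∀ k, E k) (m : ℕ), IsOpen {y : ∀ k, E k | ∀ k < m, y k = x k} := by
    intro x m
    have : {y : ∀ k, E k | ∀ k < m, y k = x k} = (Set.Iio m).pi (fun k => {x k}) := by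
      ext y; simp [Set.mem_pi]
    rw [this]
    exact isOpen_set_pi (Set.finite_Iio m) (fun _ _ => isOpen_discrete _)
  let F : ℕ → Set (∀ k, E k) := fun n => closure {x | (c n)⁻¹ * x ∈ D}
  have hF : ∀ n, IsClosed (F n) := fun n => isClosed_closure
  have hU : (⋃ n, F n) = Set.univ := by
    apply Set.eq_univ_of_forall
    intro x
    obtain ⟨n, hn⟩ := hc x
    exact Set.mem_iUnion.2 ⟨n, subset_closure hn⟩
  obtain ⟨n, x, hx⟩ := nonempty_interior_of_iUnion_of_closed hF hU
  have hx' := isOpen_interior (s := F n)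
  rw [isOpen_pi_iff] at hx'
  obtain ⟨I, V, hV, hVs⟩ := hx' x hx
  refine ⟨I.sup id + 1, fun u hu m => ?_⟩
  have hxu : x * u ∈ F n := by
    apply interior_subset
    apply hVs
    intro k hk
    have : k < I.sup id + 1 := Nat.lt_succ_of_le (Finset.le_sup (f := id) hk)
    have h1 : (x * u) k = x k := by simp [hu k this]
    rw [h1]; exact (hV k hk).2
  have hx1 : x ∈ F n := interior_subset hx
  obtain ⟨y, hy1, hy2⟩ := mem_closure_iff.1 hxu _ (hcyl (x * u) m) (fun k _ => rfl)
  obtain ⟨z, hz1, hz2⟩ := mem_closure_iff.1 hx1 _ (hcyl x m) (fun k _ => rfl)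
  refine ⟨z⁻¹ * y, ?_, fun k hk => ?_⟩
  · have := D.mul_mem (D.inv_mem hz2) hy2
    simpa [mul_assoc] using this
  · have h1 := hy1 k hk
    have h2 := hz1 k hk
    simp [h1, h2]

end Pool.Agent.Helper62.Amal
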