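import Mathlib
import Pool.Agent.Helper62.Amal.Baire

set_option autoImplicit false

namespace Pool.Agent.Helper62.Amal

/-- If a coatom contains all commutators, then some power map sends everything into it. -/
theorem coatom_pow {P : Type} [Group P] (M : Subgroup P) (hM : IsCoatom M)
    (hc : ∀ x y : P, x * y * x⁻¹ * y⁻¹ ∈ M) : ∃ n : ℕ, 0 < n ∧ ∀ x : P, x ^ n ∈ M := by
  have hN : M.Normal := by
    constructor
    intro m hm g
    have := M.mul_mem (hc g m) hm
    simpa [mul_assoc] using this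
  obtain ⟨g, hg⟩ : ∃ g, g ∉ M := by
    by_contra h
    push Not at h
    exact hM.1 (Subgroup.eq_top_iff'  M |>.2 h)
  have hcomm : ∀ a b : P ⧸ M, a * b = b * a := by
    intro a b
    obtain ⟨x, rfl⟩ := QuotientGroup.mk_surjective a
    obtain ⟨y, rfl⟩ := QuotientGroup.mk_surjective b
    rw [← QuotientGroup.mk_mul, ← QuotientGroup.mk_mul, QuotientGroup.eq]
    have := hc (y⁻¹) (x⁻¹)
    simpa [mul_assoc] using this
  -- some positive power of `g` is in `M`
  have key : ∃ n : ℕ, 0 < n ∧ g ^ n ∈ M := by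
    by_cases h2 : g ^ 2 ∈ M
    · exact ⟨2, by norm_num, h2⟩
    · have hlt : M < M ⊔ Subgroup.zpowers (g ^ 2) := by
        refine lt_of_le_of_ne le_sup_left ?_
        intro h
        apply h2
        rw [h]
        exact Subgroup.mem_sup_right (Subgroup.mem_zpowers _)
      have htop := hM.2 _ hlt
      have hgt : g ∈ M ⊔ Subgroup.zpowers (g ^ 2) := by rw [htop]; trivial
      rw [sup_comm, Subgroup.mem_sup_of_normal_right] at hgt
      obtain ⟨y, hy, z, hz, hyz⟩ := hgt
      obtain ⟨i, rfl⟩ := Subgroup.mem_zpowers_iff.1 hy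
      have hz' : g ^ (1 - 2 * i) ∈ M := by
        have : g ^ (1 - 2 * i) = (g ^ 2) ^ (-i) * g := by
          rw [← zpow_natCast g 2, ← zpow_mul, ← zpow_add_one]
          congr 1
          push_cast
          ring
        rw [this]
        nth_rewrite 2 [← hyz]
        rw [← mul_assoc, ← zpow_add]
        simpa using hz
      refine ⟨(1 - 2 * i).natAbs, ?_, ?_⟩
      · apply Int.natAbs_pos.2; omega
      · rcases Int.natAbs_eq (1 - 2 * i) with h | h
        · rw [← zpow_natCast, ← h]; exact hz'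
        · rw [← zpow_natCast]
          have : ((1 - 2 * i).natAbs : ℤ) = - (1 - 2 * i) := by omega
          rw [this, zpow_neg]
          exact M.inv_mem hz'
  obtain ⟨n, hn, hgn⟩ := key
  refine ⟨n, hn, fun x => ?_⟩
  have hlt : M < M ⊔ Subgroup.zpowers g := by
    refine lt_of_le_of_ne le_sup_left ?_
    intro h
    apply hg
    rw [h]
    exact Subgroup.mem_sup_right (Subgroup.mem_zpowers _)
  have htop := hM.2 _ hlt
  have hgt : x ∈ M ⊔ Subgroup.zpowers g := by rw [htop]; trivial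
  rw [sup_comm, Subgroup.mem_sup_of_normal_right] at hgt
  obtain ⟨y, hy, z, hz, rfl⟩ := hgt
  obtain ⟨i, rfl⟩ := Subgroup.mem_zpowers_iff.1 hy
  rw [← QuotientGroup.eq_one_iff, QuotientGroup.mk_pow, QuotientGroup.mk_mul]
  have hz1 : (z : P ⧸ M) = 1 := (QuotientGroup.eq_one_iff z).2 hz
  rw [hz1, mul_one, QuotientGroup.mk_zpow, ← zpow_natCast, ← zpow_mul, mul_comm, zpow_mul,
    zpow_natCast, ← QuotientGroup.mk_pow, (QuotientGroup.eq_one_iff _).2 hgn, one_zpow]

/-- The data of the reduction. -/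
structure Data (G P : Type) [Group G] [Group P] where
  Γ : ℕ → Subgroup G
  mono : Monotone Γ
  cover : ∀ x, ∃ m, x ∈ Γ m
  E : ℕ → Subgroup G
  hEΓ : ∀ k, E k ≤ Γ (k + 1)
  comm : ∀ k, ∀ e ∈ E k, ∀ x ∈ Γ k, e * x = x * e
  ab : ∀ k, ∀ e ∈ E k, ∀ e' ∈ E k, e * e' = e' * e
  div : ∀ k n, 0 < n → ∀ e ∈ E k, ∃ e' ∈ E k, e' ^ n = e
  j : G →* P
  s : (∀ k, E k) →* P
  h1 : ∀ g : P, ∃ x ē, g = j x * s ē
  h2 : ∀ m, ∀ x ∈ Γ m, ∀ u : ∀ k, E k, (∀ k < m, u k = 1) → s u * j x = j x * s u
  h3 : ∀ k (e : E k) (x : G),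
    s (Pi.mulSingle k e) * j x = j ((e : G) * x * (e : G)⁻¹) * s (Pi.mulSingle k e)

namespace Data

variable {G P : Type} [Group G] [Group P] (D : Data G P)

theorem Ecomm (k l : ℕ) (e e' : G) (he : e ∈ D.E k) (he' : e' ∈ D.E l) : e * e' = e' * e := by
  rcases lt_trichotomy k l with h | h | h
  · exact (D.comm l e' he' e (D.mono (by omega) (D.hEΓ k he))).symm
  · subst h; exact D.ab k e he e' he'
  · exact D.comm k e he e' (D.mono (by omega) (D.hEΓ l he'))

theorem pi_comm (u v : ∀ k, D.E k) : u * v = v * u := by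
  funext k
  apply Subtype.ext
  exact D.ab k _ (u k).2 _ (v k).2


/-- The product of the first `m` coordinates. -/
def pr (u : ∀ k, D.E k) : ℕ → G
  | 0 => 1
  | m + 1 => pr u m * (u m : G)

theorem pr_mem (u : ∀ k, D.E k) (K : Subgroup G) (m : ℕ) (h : ∀ k < m, (u k : G) ∈ K) :
    D.pr u m ∈ K := by
  induction m with
  | zero => exact K.one_mem
  | succ m ih => exact K.mul_mem (ih fun k hk => h k (by omega)) (h m (by omega))

theorem pr_congr (u v : ∀ k, D.E k) (m : ℕ) (h : ∀ k < m, u k = v k) : D.pr u m = D.pr v m := by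
  induction m with
  | zero => rfl
  | succ m ih =>
    show D.pr u m * (u m : G) = D.pr v m * (v m : G)
    rw [ih fun k hk => h k (by omega), h m (by omega)]

theorem pr_comm_E (u : ∀ k, D.E k) (m k : ℕ) (e : G) (he : e ∈ D.E k) :
    D.pr u m * e = e * D.pr u m := by
  induction m with
  | zero => simp [pr]
  | succ m ih =>
    show D.pr u m * (u m : G) * e = e * (D.pr u m * (u m : G))
    rw [mul_assoc, D.Ecomm m k (u m) e (u m).2 he, ← mul_assoc, ih, mul_assoc]

theorem act_fin (m : ℕ) : ∀ (u : ∀ k, D.E k), (∀ k, m ≤ k → u k = 1) → ∀ x : G,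
    D.s u * D.j x = D.j (D.pr u m * x * (D.pr u m)⁻¹) * D.s u := by
  induction m with
  | zero =>
    intro u hu x
    have : u = 1 := funext fun k => hu k (Nat.zero_le k)
    subst this
    simp [pr]
  | succ m ih =>
    intro u hu x
    set v : ∀ k, D.E k := Function.update u m 1 with hv
    have hdec : u = v * Pi.mulSingle m (u m) := by
      funext k
      by_cases hk : k = m
      · subst hk; simp [hv]
      · simp [hv, hk]
    have hvm : ∀ k, m ≤ k → v k = 1 := by
      intro k hk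
      by_cases hkm : k = m
      · subst hkm; simp [hv]
      · simp only [hv, Function.update_of_ne hkm]; exact hu k (by omega)
    have hpr : D.pr u m = D.pr v m := by
      apply D.pr_congr
      intro k hk
      simp [hv, Function.update_of_ne (show k ≠ m by omega)]
    have h3 := D.h3 m (u m) x
    have h4 := ih v hvm (u m * x * (u m : G)⁻¹)
    show D.s u * D.j x = D.j (D.pr u m * (u m : G) * x * (D.pr u m * (u m : G))⁻¹) * D.s u
    have hs : D.s u = D.s v * D.s (Pi.mulSingle m (u m)) := by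
      conv_lhs => rw [hdec, map_mul]
    rw [hs, mul_assoc, h3, ← mul_assoc, h4, hpr]
    simp [mul_assoc]

theorem act (m : ℕ) (x : G) (hx : x ∈ D.Γ m) (u : ∀ k, D.E k) :
    D.s u * D.j x = D.j (D.pr u m * x * (D.pr u m)⁻¹) * D.s u := by
  set v : ∀ k, D.E k := fun k => if k < m then u k else 1 with hv
  set w : ∀ k, D.E k := fun k => if k < m then 1 else u k with hw
  have hdec : u = v * w := by
    funext k
    by_cases hk : k < m
    · simp [hv, hw, hk]
    · simp [hv, hw, hk]
  have hvm : ∀ k, m ≤ k → v k = 1 := by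
    intro k hk
    simp [hv, not_lt.2 hk]
  have hwm : ∀ k < m, w k = 1 := by
    intro k hk
    simp [hw, hk]
  have hpr : D.pr u m = D.pr v m := by
    apply D.pr_congr
    intro k hk
    simp [hv, hk]
  have h2 := D.h2 m x hx w hwm
  have h4 := D.act_fin m v hvm x
  have hs : D.s u = D.s v * D.s w := by
    conv_lhs => rw [hdec, map_mul]
  rw [hs, mul_assoc, h2, ← mul_assoc, h4, hpr]
  simp [mul_assoc]

theorem act' (x : G) (u : ∀ k, D.E k) : ∃ c : G,
    D.s u * D.j x * (D.s u)⁻¹ = D.j (c * x * c⁻¹) := by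
  obtain ⟨m, hm⟩ := D.cover x
  refine ⟨D.pr u m, ?_⟩
  rw [D.act m x hm u]
  simp

theorem z_comm (k : ℕ) (e : D.E k) (g : P) :
    ((D.j e)⁻¹ * D.s (Pi.mulSingle k e)) * g = g * ((D.j e)⁻¹ * D.s (Pi.mulSingle k e)) := by
  obtain ⟨x, u, rfl⟩ := D.h1 g
  have h1 : ((D.j e)⁻¹ * D.s (Pi.mulSingle k e)) * D.j x
      = D.j x * ((D.j e)⁻¹ * D.s (Pi.mulSingle k e)) := by
    rw [mul_assoc, D.h3]
    simp [mul_assoc]
  have h2 : ((D.j e)⁻¹ * D.s (Pi.mulSingle k e)) * D.s u
      = D.s u * ((D.j e)⁻¹ * D.s (Pi.mulSingle k e)) := by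
    have h3 := D.act (k + 1) e (D.hEΓ k e.2) u
    have h4 : D.pr u (k + 1) * (e : G) * (D.pr u (k + 1))⁻¹ = e := by
      rw [D.pr_comm_E u (k + 1) k e e.2]; simp
    rw [h4] at h3
    have h5 : (D.j e)⁻¹ * D.s u = D.s u * (D.j e)⁻¹ := by
      rw [inv_mul_eq_iff_eq_mul, ← mul_assoc, ← h3]; simp
    rw [mul_assoc, ← map_mul, D.pi_comm, map_mul, ← mul_assoc, h5, mul_assoc]
  rw [← mul_assoc, h1, mul_assoc, h2, mul_assoc]

/-- The hypothesis on the abelianisation: it is divisible modulo the images of the `E k`. -/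
def HE (D : Data G P) : Prop :=
  ∀ n > 0, ∀ x, ∃ y, y ^ n * x⁻¹ ∈ commutator G ⊔ ⨆ k, D.E k

theorem mem_commutator {G : Type} [Group G] (x y : G) : x * y * x⁻¹ * y⁻¹ ∈ commutator G :=
  Subgroup.commutator_mem_commutator (Subgroup.mem_top x) (Subgroup.mem_top y)

theorem lemmaA (he : D.HE) (M : Subgroup P) (hM : IsCoatom M)
    (hc : ∀ x y : P, x * y * x⁻¹ * y⁻¹ ∈ M) : False := by
  obtain ⟨n, hn, hpow⟩ := coatom_pow M hM hc
  have hN : M.Normal := by
    constructor
    intro m hm g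
    have := M.mul_mem (hc g m) hm
    simpa [mul_assoc] using this
  have hj : ∀ x, D.j x ∈ M := by
    intro x
    obtain ⟨y, hy⟩ := he n hn x
    have hle : commutator G ⊔ ⨆ k, D.E k ≤ M.comap D.j := by
      refine sup_le ?_ (iSup_le fun k e hk => ?_)
      · rw [commutator_def, Subgroup.commutator_le]
        intro a _ b _
        rw [Subgroup.mem_comap, commutatorElement_def]
        simpa using hc (D.j a) (D.j b)
      · obtain ⟨e', he', h⟩ := D.div k n hn e hk
        rw [Subgroup.mem_comap, ← h, map_pow]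
        exact hpow _
    have hy := hle hy
    rw [Subgroup.mem_comap, map_mul, map_pow, map_inv] at hy
    have := (M.mul_mem_cancel_left (hpow (D.j y))).1 hy
    exact M.inv_mem_iff.1 this
  have hs : ∀ u, D.s u ∈ M := by
    intro u
    have : ∀ k, ∃ e' : D.E k, e' ^ n = u k := by
      intro k
      obtain ⟨e', he', h⟩ := D.div k n hn (u k) (u k).2
      exact ⟨⟨e', he'⟩, Subtype.ext h⟩
    choose v hv using this
    have : u = v ^ n := by
      funext k
      rw [Pi.pow_apply, hv]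
    rw [this, map_pow]
    exact hpow _
  apply hM.1
  rw [Subgroup.eq_top_iff']
  intro g
  obtain ⟨x, u, rfl⟩ := D.h1 g
  exact M.mul_mem (hj x) (hs u)

theorem lemmaB (N : Subgroup G) (hN : N.Normal) (M : Subgroup P) (hNM : ∀ x ∈ N, D.j x ∈ M)
    (hc : ∀ x y, x * y * x⁻¹ * y⁻¹ ∈ N) : ∀ x y : P, x * y * x⁻¹ * y⁻¹ ∈ M := by
  intro g g'
  obtain ⟨x, u, rfl⟩ := D.h1 g
  obtain ⟨x', u', rfl⟩ := D.h1 g'
  obtain ⟨c, hc1⟩ := D.act' x' u
  obtain ⟨c', hc2⟩ := D.act' x u'
  have e1 : D.j x * D.s u * (D.j x' * D.s u') = D.j (x * (c * x' * c⁻¹)) * D.s (u * u') := by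
    rw [map_mul, ← hc1, map_mul]; simp [mul_assoc]
  have e2 : D.j x' * D.s u' * (D.j x * D.s u) = D.j (x' * (c' * x * c'⁻¹)) * D.s (u * u') := by
    rw [D.pi_comm u u', map_mul, ← hc2, map_mul]; simp [mul_assoc]
  have e3 : D.j x * D.s u * (D.j x' * D.s u') * (D.j x * D.s u)⁻¹ * (D.j x' * D.s u')⁻¹
      = D.j ((x * (c * x' * c⁻¹)) * (x' * (c' * x * c'⁻¹))⁻¹) := by
    have : D.j x * D.s u * (D.j x' * D.s u') * (D.j x * D.s u)⁻¹ * (D.j x' * D.s u')⁻¹
      = (D.j x * D.s u * (D.j x' * D.s u')) * (D.j x' * D.s u' * (D.j x * D.s u))⁻¹ := by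
      group
    rw [this, e1, e2, map_mul _ (x * (c * x' * c⁻¹)), map_inv]
    group
  rw [e3]
  apply hNM
  have hcomm : ∀ a b : G ⧸ N, a * b = b * a := by
    intro a b
    obtain ⟨x, rfl⟩ := QuotientGroup.mk_surjective a
    obtain ⟨y, rfl⟩ := QuotientGroup.mk_surjective b
    rw [← QuotientGroup.mk_mul, ← QuotientGroup.mk_mul, QuotientGroup.eq]
    have := hc (y⁻¹) (x⁻¹)
    simpa [mul_assoc] using this
  let _ : CommGroup (G ⧸ N) := { (inferInstance : Group (G ⧸ N)) with mul_comm := hcomm }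
  rw [← QuotientGroup.eq_one_iff]
  have : ((x * (c * x' * c⁻¹) * (x' * (c' * x * c'⁻¹))⁻¹ : G) : G ⧸ N)
      = (x : G ⧸ N) * ((c : G ⧸ N) * (x' : G ⧸ N) * (c : G ⧸ N)⁻¹)
        * ((x' : G ⧸ N) * ((c' : G ⧸ N) * (x : G ⧸ N) * (c' : G ⧸ N)⁻¹))⁻¹ := rfl
  rw [this, mul_right_comm (c : G ⧸ N), mul_right_comm (c' : G ⧸ N), mul_inv_cancel,
    mul_inv_cancel, one_mul, one_mul, mul_comm (x' : G ⧸ N), mul_inv_cancel]

theorem lemmaZ (he : D.HE) (M : Subgroup P) (hM : IsCoatom M) (k : ℕ) (e : D.E k) :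
    (D.j e)⁻¹ * D.s (Pi.mulSingle k e) ∈ M := by
  by_contra hz
  set z := (D.j e)⁻¹ * D.s (Pi.mulSingle k e) with hzdef
  have hcz : ∀ g, z * g = g * z := D.z_comm k e
  have hzc : ∀ (i : ℤ) (g : P), z ^ i * g = g * z ^ i := fun i g => (Commute.zpow_left (hcz g) i)
  have hnz : (Subgroup.zpowers z).Normal := by
    constructor
    intro n hn g
    obtain ⟨i, rfl⟩ := Subgroup.mem_zpowers_iff.1 hn
    rw [← hzc i g]
    simp
  have hlt : M < M ⊔ Subgroup.zpowers z := by
    refine lt_of_le_of_ne le_sup_left ?_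
    intro h
    apply hz
    rw [h]
    exact Subgroup.mem_sup_right (Subgroup.mem_zpowers _)
  have htop := hM.2 _ hlt
  refine D.lemmaA he M hM fun x y => ?_
  have hx : x ∈ M ⊔ Subgroup.zpowers z := by rw [htop]; trivial
  have hy : y ∈ M ⊔ Subgroup.zpowers z := by rw [htop]; trivial
  rw [Subgroup.mem_sup_of_normal_right] at hx hy
  obtain ⟨a, ha, b, hb, rfl⟩ := hx
  obtain ⟨a', ha', b', hb', rfl⟩ := hy
  obtain ⟨i, rfl⟩ := Subgroup.mem_zpowers_iff.1 hb
  obtain ⟨i', rfl⟩ := Subgroup.mem_zpowers_iff.1 hb'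
  have : a * z ^ i * (a' * z ^ i') * (a * z ^ i)⁻¹ * (a' * z ^ i')⁻¹ = a * a' * a⁻¹ * a'⁻¹ := by
    have e1 : a * z ^ i * (a' * z ^ i') = a * a' * (z ^ i * z ^ i') := by
      rw [mul_assoc, ← mul_assoc (z ^ i), hzc i a']; simp [mul_assoc]
    have e2 : a' * z ^ i' * (a * z ^ i) = a' * a * (z ^ i * z ^ i') := by
      rw [mul_assoc, ← mul_assoc (z ^ i'), hzc i' a, ← zpow_add, add_comm, zpow_add]
      simp [mul_assoc]
    have e3 : a * z ^ i * (a' * z ^ i') * (a * z ^ i)⁻¹ * (a' * z ^ i')⁻¹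
        = (a * z ^ i * (a' * z ^ i')) * (a' * z ^ i' * (a * z ^ i))⁻¹ := by group
    rw [e3, e1, e2]
    group
  rw [this]
  exact M.mul_mem (M.mul_mem (M.mul_mem ha ha') (M.inv_mem ha)) (M.inv_mem ha')

theorem range_normal : D.j.range.Normal := by
  constructor
  rintro _ ⟨x, rfl⟩ g
  obtain ⟨y, u, rfl⟩ := D.h1 g
  obtain ⟨c, hc⟩ := D.act' x u
  refine ⟨y * (c * x * c⁻¹) * y⁻¹, ?_⟩
  rw [map_mul, map_mul, ← hc, map_inv]
  group

theorem lemmaD [Countable G] (M : Subgroup P) (hM : IsCoatom M) (hj : ¬ D.j.range ≤ M) :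
    ∃ c : ℕ → (∀ k, D.E k), ∀ x, ∃ n, (c n)⁻¹ * x ∈ M.comap D.s := by
  classical
  have hN := D.range_normal
  have hlt : M < M ⊔ D.j.range := by
    refine lt_of_le_of_ne le_sup_left ?_
    intro h
    apply hj
    rw [h]
    exact le_sup_right
  have htop := hM.2 _ hlt
  obtain ⟨f, hf⟩ := exists_surjective_nat G
  refine ⟨fun n => if h : ∃ u, ∃ m ∈ M, D.s u = m * D.j (f n) then h.choose else 1, fun x => ?_⟩
  have hx : D.s x ∈ M ⊔ D.j.range := by rw [htop]; trivial
  rw [Subgroup.mem_sup_of_normal_right] at hx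
  obtain ⟨m, hm, _, ⟨g, rfl⟩, hg⟩ := hx
  obtain ⟨n, rfl⟩ := hf g
  refine ⟨n, ?_⟩
  have h : ∃ u, ∃ m ∈ M, D.s u = m * D.j (f n) := ⟨x, m, hm, hg.symm⟩
  simp only [dif_pos h]
  obtain ⟨m', hm', h'⟩ := h.choose_spec
  rw [Subgroup.mem_comap, D.pi_comm, map_mul, ← hg, map_inv, h']
  have : m * D.j (f n) * (m' * D.j (f n))⁻¹ = m * m'⁻¹ := by group
  rw [this]
  exact M.mul_mem hm (M.inv_mem hm')

/-- The closure of `M` with respect to the tails. -/
def hat (M : Subgroup P) : Subgroup P where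
  carrier := {g | ∀ m : ℕ, ∃ u : ∀ k, D.E k, (∀ k < m, u k = 1) ∧ g * D.s u ∈ M}
  one_mem' := fun m => ⟨1, fun _ _ => rfl, by simp⟩
  mul_mem' := by
    intro g g' hg hg' m
    obtain ⟨x', v', hv'⟩ := D.h1 g'
    obtain ⟨n, hn⟩ := D.cover x'
    obtain ⟨u, hu, hu'⟩ := hg (max m n)
    obtain ⟨w, hw, hw'⟩ := hg' m
    refine ⟨u * w, fun k hk => ?_, ?_⟩
    · simp [hu k (lt_of_lt_of_le hk (le_max_left _ _)), hw k hk]
    · have hcomm : D.s u * g' = g' * D.s u := by
        have h1 := D.h2 n x' hn u (fun k hk => hu k (lt_of_lt_of_le hk (le_max_right _ _)))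
        rw [hv', ← mul_assoc, h1, mul_assoc, ← map_mul, D.pi_comm, map_mul, mul_assoc]
      have := M.mul_mem hu' hw'
      rw [map_mul]
      have e : g * g' * (D.s u * D.s w) = g * D.s u * (g' * D.s w) := by
        rw [mul_assoc g, mul_assoc g, ← mul_assoc (D.s u), hcomm]; simp [mul_assoc]
      rw [e]; exact this
  inv_mem' := by
    intro g hg m
    obtain ⟨x', v', hv'⟩ := D.h1 g
    obtain ⟨n, hn⟩ := D.cover x'
    obtain ⟨u, hu, hu'⟩ := hg (max m n)
    refine ⟨u⁻¹, fun k hk => ?_, ?_⟩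
    · simp [hu k (lt_of_lt_of_le hk (le_max_left _ _))]
    · have hcomm : D.s u * g = g * D.s u := by
        have h1 := D.h2 n x' hn u (fun k hk => hu k (lt_of_lt_of_le hk (le_max_right _ _)))
        rw [hv', ← mul_assoc, h1, mul_assoc, ← map_mul, D.pi_comm, map_mul, mul_assoc]
      have := M.inv_mem hu'
      rw [← hcomm, mul_inv_rev] at this
      rw [map_inv]
      exact this

theorem le_hat (M : Subgroup P) : M ≤ D.hat M := by
  intro g hg m
  exact ⟨1, fun _ _ => rfl, by simpa using hg⟩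

theorem no_coatom [Countable G] (he : D.HE)
    (hd : ∀ k0 (M : Subgroup G), (∀ k ≥ k0, D.E k ≤ M) → ¬ IsCoatom M)
    (M : Subgroup P) : ¬ IsCoatom M := by
  intro hM
  by_cases hj : D.j.range ≤ M
  · refine D.lemmaA he M hM (D.lemmaB ⊤ inferInstance M (fun x _ => hj ⟨x, rfl⟩) ?_)
    intro x y; trivial
  have _ : ∀ k, Countable (D.E k) := fun k => inferInstance
  obtain ⟨k0, hk0⟩ := baire_coset (M.comap D.s) (D.lemmaD M hM hj)
  by_cases hhat : D.hat M = M
  · -- closed case
    have hW : ∀ u : ∀ k, D.E k, (∀ k < k0, u k = 1) → D.s u ∈ M := by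
      intro u hu
      rw [← hhat]
      intro m
      obtain ⟨d, hd, hdm⟩ := hk0 u hu m
      refine ⟨u⁻¹ * d, fun k hk => ?_, ?_⟩
      · simp [hdm k hk]
      · rw [← map_mul]
        simpa using hd
    have hE : ∀ k ≥ k0, D.E k ≤ M.comap D.j := by
      intro k hk e hek
      have h1 := hW (Pi.mulSingle k ⟨e, hek⟩) (fun l hl => by
        rw [Pi.mulSingle_eq_of_ne (by omega)])
      have h2 := D.lemmaZ he M hM k ⟨e, hek⟩
      rw [Subgroup.mem_comap]
      exact M.inv_mem_iff.1 ((M.mul_mem_cancel_right h1).1 h2)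
    refine hd k0 (M.comap D.j) hE ⟨?_, ?_⟩
    · intro h
      apply hj
      rintro _ ⟨x, rfl⟩
      have : x ∈ M.comap D.j := by rw [h]; trivial
      exact this
    · intro L' hL'
      -- the subgroup of M normalising j(L')
      have hnorm : ∀ u : ∀ k, D.E k, (∀ k < k0, u k = 1) → ∀ x ∈ L',
          ∃ x' ∈ L', D.s u * D.j x * (D.s u)⁻¹ = D.j x' := by
        intro u hu x hx
        obtain ⟨m, hm⟩ := D.cover x
        have hp : D.pr u m ∈ L' := by
          apply D.pr_mem
          intro k hk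
          by_cases hkk : k < k0
          · rw [hu k hkk]; exact L'.one_mem
          · exact hL'.le (hE k (not_lt.1 hkk) (u k).2)
        refine ⟨_, L'.mul_mem (L'.mul_mem hp hx) (L'.inv_mem hp), ?_⟩
        rw [D.act m x hm u]; simp
      let T : Subgroup P :=
        { carrier := {g | ∃ x ∈ L', ∃ t ∈ M, (∀ y ∈ L', ∃ y' ∈ L', t * D.j y * t⁻¹ = D.j y') ∧
            (∀ y ∈ L', ∃ y' ∈ L', t⁻¹ * D.j y * t = D.j y') ∧ g = D.j x * t}
          one_mem' := ⟨1, L'.one_mem, 1, M.one_mem, fun y hy => ⟨y, hy, by simp⟩,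
            fun y hy => ⟨y, hy, by simp⟩, by simp⟩
          mul_mem' := by
            rintro _ _ ⟨x, hx, t, ht, h1, h2, rfl⟩ ⟨x', hx', t', ht', h1', h2', rfl⟩
            obtain ⟨y, hy, hy'⟩ := h1 x' hx'
            refine ⟨x * y, L'.mul_mem hx hy, t * t', M.mul_mem ht ht', ?_, ?_, ?_⟩
            · intro a ha
              obtain ⟨b, hb, hb'⟩ := h1' a ha
              obtain ⟨c, hc, hc'⟩ := h1 b hb
              refine ⟨c, hc, ?_⟩
              rw [← hc', ← hb']; group
            · intro a ha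
              obtain ⟨b, hb, hb'⟩ := h2 a ha
              obtain ⟨c, hc, hc'⟩ := h2' b hb
              refine ⟨c, hc, ?_⟩
              rw [← hc', ← hb']; group
            · rw [map_mul, ← hy']; group
          inv_mem' := by
            rintro _ ⟨x, hx, t, ht, h1, h2, rfl⟩
            obtain ⟨y, hy, hy'⟩ := h2 x⁻¹ (L'.inv_mem hx)
            refine ⟨y, hy, t⁻¹, M.inv_mem ht, ?_, ?_, ?_⟩
            · intro a ha
              obtain ⟨b, hb, hb'⟩ := h2 a ha
              exact ⟨b, hb, by rw [← hb']; simp⟩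
            · intro a ha
              obtain ⟨b, hb, hb'⟩ := h1 a ha
              exact ⟨b, hb, by rw [← hb']; simp⟩
            · rw [← hy', map_inv]; group }
      have hTj : ∀ x ∈ L', D.j x ∈ T := fun x hx =>
        ⟨x, hx, 1, M.one_mem, fun y hy => ⟨y, hy, by simp⟩, fun y hy => ⟨y, hy, by simp⟩, by simp⟩
      have hTW : ∀ u : ∀ k, D.E k, (∀ k < k0, u k = 1) → D.s u ∈ T := by
        intro u hu
        refine ⟨1, L'.one_mem, D.s u, hW u hu, hnorm u hu, ?_, by simp⟩
        intro y hy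
        obtain ⟨y', hy', h⟩ := hnorm u⁻¹ (fun k hk => by simp [hu k hk]) y hy
        refine ⟨y', hy', ?_⟩
        rw [← h, map_inv]; simp
      have hTZ : ∀ k (e : D.E k), (D.j e)⁻¹ * D.s (Pi.mulSingle k e) ∈ T := by
        intro k e
        have hz := D.z_comm k e
        refine ⟨1, L'.one_mem, (D.j e)⁻¹ * D.s (Pi.mulSingle k e), D.lemmaZ he M hM k e, ?_, ?_,
          by simp⟩
        · intro y hy
          refine ⟨y, hy, ?_⟩
          rw [hz]; group
        · intro y hy
          refine ⟨y, hy, ?_⟩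
          rw [mul_assoc, ← hz]; group
      -- every `s u` lies in `T * j(G)`: reduce the first `k0` coordinates
      have hred : ∀ n, ∀ u : ∀ k, D.E k, (∀ k, n ≤ k → u k = 1) →
          ∃ x : G, ∃ t, t ∈ T ∧ t ∈ M ∧ D.s u = D.j x * t := by
        intro n
        induction n with
        | zero =>
          intro u hu
          have : u = 1 := funext fun k => hu k (Nat.zero_le k)
          subst this
          exact ⟨1, 1, T.one_mem, M.one_mem, by simp⟩
        | succ n ih =>
          intro u hu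
          set v : ∀ k, D.E k := Function.update u n 1 with hv
          have hdec : u = v * Pi.mulSingle n (u n) := by
            funext k
            by_cases hk : k = n
            · subst hk; simp [hv]
            · simp [hv, hk]
          have hvm : ∀ k, n ≤ k → v k = 1 := by
            intro k hk
            by_cases hkm : k = n
            · subst hkm; simp [hv]
            · simp only [hv, Function.update_of_ne hkm]; exact hu k (by omega)
          obtain ⟨x, t, ht, ht', hx⟩ := ih v hvm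
          have hz := D.z_comm n (u n)
          refine ⟨u n * x, ((D.j (u n))⁻¹ * D.s (Pi.mulSingle n (u n))) * t,
            T.mul_mem (hTZ n (u n)) ht, M.mul_mem (D.lemmaZ he M hM n (u n)) ht', ?_⟩
          have hs : D.s u = D.s (Pi.mulSingle n (u n)) * D.s v := by
            conv_lhs => rw [hdec, D.pi_comm, map_mul]
          rw [hs, hx, map_mul]
          have e := hz (D.j x)
          calc D.s (Pi.mulSingle n (u n)) * (D.j x * t)
              = D.j (u n) * ((D.j (u n))⁻¹ * D.s (Pi.mulSingle n (u n)) * D.j x) * t := by group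
            _ = _ := by rw [e]; simp [mul_assoc]
      have hdecomp : ∀ g : P, ∃ x : G, ∃ t, t ∈ T ∧ t ∈ M ∧ g = D.j x * t := by
        intro g
        obtain ⟨x, u, rfl⟩ := D.h1 g
        set v : ∀ k, D.E k := fun k => if k < k0 then u k else 1 with hv
        set w : ∀ k, D.E k := fun k => if k < k0 then 1 else u k with hw
        have hdec : u = v * w := by
          funext k
          by_cases hk : k < k0
          · simp [hv, hw, hk]
          · simp [hv, hw, hk]
        have hvm : ∀ k, k0 ≤ k → v k = 1 := by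
          intro k hk
          simp [hv, not_lt.2 hk]
        have hwm : ∀ k < k0, w k = 1 := by
          intro k hk
          simp [hw, hk]
        obtain ⟨y, t, ht, ht', hy⟩ := hred k0 v hvm
        refine ⟨x * y, t * D.s w, T.mul_mem ht (hTW w hwm), M.mul_mem ht' (hW w hwm), ?_⟩
        have hs : D.s u = D.s v * D.s w := by
          conv_lhs => rw [hdec, map_mul]
        rw [hs, hy, map_mul]; group
      have hMT : M ≤ T := by
        intro g hg
        obtain ⟨x, t, ht, ht', rfl⟩ := hdecomp g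
        have : D.j x ∈ M := (M.mul_mem_cancel_right ht').1 hg
        exact T.mul_mem (hTj x (hL'.le this)) ht
      have hne : M < T := by
        refine lt_of_le_of_ne hMT ?_
        intro h
        apply hL'.not_ge
        intro x hx
        rw [Subgroup.mem_comap, h]
        exact hTj x hx
      have htop := hM.2 _ hne
      rw [Subgroup.eq_top_iff']
      intro x
      have hxT : D.j x ∈ T := by rw [htop]; trivial
      obtain ⟨x', hx', t, ht, -, -, h⟩ := hxT
      have h' : x'⁻¹ * x ∈ M.comap D.j := by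
        rw [Subgroup.mem_comap, map_mul, map_inv, h]
        simpa using ht
      have := L'.mul_mem hx' (hL'.le h')
      simpa using this
  · -- dense case
    have htop : D.hat M = ⊤ := hM.2 _ (lt_of_le_of_ne (D.le_hat M) (Ne.symm hhat))
    have hcomm : ∀ x y : G, D.j (x * y * x⁻¹ * y⁻¹) ∈ M := by
      intro x y
      obtain ⟨a, ha⟩ := D.cover x
      obtain ⟨b, hb⟩ := D.cover y
      have hx : x ∈ D.Γ (max a b) := D.mono (le_max_left _ _) ha
      have hy : y ∈ D.Γ (max a b) := D.mono (le_max_right _ _) hb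
      have h1 : D.j x ∈ D.hat M := by rw [htop]; trivial
      have h2 : D.j y ∈ D.hat M := by rw [htop]; trivial
      obtain ⟨u, hu, hu'⟩ := h1 (max a b)
      obtain ⟨v, hv, hv'⟩ := h2 (max a b)
      have e1 := D.h2 _ x hx u hu
      have e2 := D.h2 _ y hy u hu
      have e3 := D.h2 _ x hx v hv
      have e5 : D.s v * D.s u = D.s u * D.s v := by rw [← map_mul, D.pi_comm, map_mul]
      have h := M.mul_mem (M.mul_mem (M.mul_mem hu' hv') (M.inv_mem hu')) (M.inv_mem hv')
      have e4 : D.j x * D.s u * (D.j y * D.s v) * (D.j x * D.s u)⁻¹ * (D.j y * D.s v)⁻¹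
          = D.j (x * y * x⁻¹ * y⁻¹) := by
        have l1 : D.j x * D.s u * (D.j y * D.s v) = D.j x * D.j y * (D.s u * D.s v) := by
          rw [mul_assoc, ← mul_assoc (D.s u), e2]; simp [mul_assoc]
        have l2 : D.j y * D.s v * (D.j x * D.s u) = D.j y * D.j x * (D.s u * D.s v) := by
          rw [mul_assoc, ← mul_assoc (D.s v), e3, mul_assoc (D.j x), e5]; simp [mul_assoc]
        have l3 : D.j x * D.s u * (D.j y * D.s v) * (D.j x * D.s u)⁻¹ * (D.j y * D.s v)⁻¹
            = (D.j x * D.s u * (D.j y * D.s v)) * (D.j y * D.s v * (D.j x * D.s u))⁻¹ := by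
          group
        rw [l3, l1, l2, map_mul, map_mul, map_mul, map_inv, map_inv]
        group
      rw [← e4]
      exact h
    have hle : commutator G ≤ M.comap D.j := by
      rw [commutator_def, Subgroup.commutator_le]
      intro a _ b _
      rw [Subgroup.mem_comap, commutatorElement_def]
      exact hcomm a b
    exact D.lemmaA he M hM (D.lemmaB (commutator G) inferInstance M (fun x hx => hle hx)
      mem_commutator)

end Data

end Pool.Agent.Helper62.Amal
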