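import Mathlib
import Pool.Agent.Helper62.Amal.Abstract

set_option autoImplicit false

namespace Pool.Agent.Helper62.Amal

/-- The hypotheses on the countable group: a chain `Γ` and divisible abelian subgroups `E k`. -/
structure Chain (G : Type) [Group G] where
  Γ : ℕ → Subgroup G
  mono : Monotone Γ
  cover : ∀ x, ∃ m, x ∈ Γ m
  E : ℕ → Subgroup G
  hEΓ : ∀ k, E k ≤ Γ (k + 1)
  comm : ∀ k, ∀ e ∈ E k, ∀ x ∈ Γ k, e * x = x * e
  ab : ∀ k, ∀ e ∈ E k, ∀ e' ∈ E k, e * e' = e' * e
  div : ∀ k n, 0 < n → ∀ e ∈ E k, ∃ e' ∈ E k, e' ^ n = e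

namespace Chain

variable {G : Type} [Group G] (D : Chain G)

theorem Ecomm (k l : ℕ) (e e' : G) (he : e ∈ D.E k) (he' : e' ∈ D.E l) : e * e' = e' * e := by
  rcases lt_trichotomy k l with h | h | h
  · exact (D.comm l e' he' e (D.mono (by omega) (D.hEΓ k he))).symm
  · subst h; exact D.ab k e he e' he'
  · exact D.comm k e he e' (D.mono (by omega) (D.hEΓ l he'))

/-- The product of the first `m` coordinates. -/
def pr (u : ∀ k, D.E k) : ℕ → G
  | 0 => 1
  | m + 1 => pr u m * (u m : G)

theorem pr_mem (u : ∀ k, D.E k) (K : Subgroup G) (m : ℕ) (h : ∀ k < m, (u k : G) ∈ K) :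
    D.pr u m ∈ K := by
  induction m with
  | zero => exact K.one_mem
  | succ m ih => exact K.mul_mem (ih fun k hk => h k (by omega)) (h m (by omega))

theorem pr_mem_Γ (u : ∀ k, D.E k) (m : ℕ) : D.pr u m ∈ D.Γ m :=
  D.pr_mem u _ m fun k hk => D.mono (by omega) (D.hEΓ k (u k).2)

theorem pr_mul (u v : ∀ k, D.E k) (m : ℕ) : D.pr (u * v) m = D.pr u m * D.pr v m := by
  induction m with
  | zero => simp [pr]
  | succ m ih =>
    show D.pr (u * v) m * ((u m * v m : D.E m) : G) = D.pr u m * (u m : G) * (D.pr v m * (v m : G))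
    have h := D.comm m (u m) (u m).2 (D.pr v m) (D.pr_mem_Γ v m)
    rw [ih, Subgroup.coe_mul]
    calc D.pr u m * D.pr v m * ((u m : G) * (v m : G))
        = D.pr u m * (D.pr v m * (u m : G)) * (v m : G) := by simp [mul_assoc]
      _ = _ := by rw [← h]; simp [mul_assoc]

theorem pr_one (m : ℕ) : D.pr 1 m = 1 := by
  induction m with
  | zero => rfl
  | succ m ih =>
    show D.pr 1 m * (((1 : ∀ k, D.E k) m : D.E m) : G) = 1
    rw [ih]; simp

theorem pr_inv (u : ∀ k, D.E k) (m : ℕ) : D.pr u⁻¹ m = (D.pr u m)⁻¹ := by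
  rw [eq_inv_iff_mul_eq_one, ← pr_mul, inv_mul_cancel, pr_one]

theorem pr_eq_one (u : ∀ k, D.E k) (m : ℕ) (h : ∀ k < m, u k = 1) : D.pr u m = 1 := by
  induction m with
  | zero => rfl
  | succ m ih =>
    show D.pr u m * (u m : G) = 1
    rw [ih fun k hk => h k (by omega), h m (by omega)]; simp

theorem conj_stable (u : ∀ k, D.E k) (m n : ℕ) (hmn : m ≤ n) (x : G) (hx : x ∈ D.Γ m) :
    D.pr u n * x * (D.pr u n)⁻¹ = D.pr u m * x * (D.pr u m)⁻¹ := by
  induction n, hmn using Nat.le_induction with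
  | base => rfl
  | succ n hmn ih =>
    rw [← ih]
    show D.pr u n * (u n : G) * x * (D.pr u n * (u n : G))⁻¹ = _
    have h := D.comm n (u n) (u n).2 x (D.mono hmn hx)
    calc D.pr u n * (u n : G) * x * (D.pr u n * (u n : G))⁻¹
        = D.pr u n * ((u n : G) * x) * (u n : G)⁻¹ * (D.pr u n)⁻¹ := by simp [mul_assoc]
      _ = _ := by rw [h]; simp [mul_assoc]

/-- An index at which `x` appears. -/
noncomputable def idx (x : G) : ℕ := (D.cover x).choose

theorem idx_mem (x : G) : x ∈ D.Γ (D.idx x) := (D.cover x).choose_spec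

/-- The action function. -/
noncomputable def af (u : ∀ k, D.E k) (x : G) : G :=
  D.pr u (D.idx x) * x * (D.pr u (D.idx x))⁻¹

theorem af_eq (u : ∀ k, D.E k) (x : G) (m : ℕ) (hx : x ∈ D.Γ m) :
    D.af u x = D.pr u m * x * (D.pr u m)⁻¹ := by
  have h1 := D.conj_stable u (D.idx x) (max (D.idx x) m) (le_max_left _ _) x (D.idx_mem x)
  have h2 := D.conj_stable u m (max (D.idx x) m) (le_max_right _ _) x hx
  rw [af, ← h1, h2]

theorem af_mem_Γ (u : ∀ k, D.E k) (x : G) (m : ℕ) (hx : x ∈ D.Γ m) : D.af u x ∈ D.Γ m := by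
  rw [D.af_eq u x m hx]
  exact (D.Γ m).mul_mem ((D.Γ m).mul_mem (D.pr_mem_Γ u m) hx) ((D.Γ m).inv_mem (D.pr_mem_Γ u m))

theorem af_mul (u : ∀ k, D.E k) (x y : G) : D.af u (x * y) = D.af u x * D.af u y := by
  obtain ⟨a, ha⟩ := D.cover x
  obtain ⟨b, hb⟩ := D.cover y
  have ha' : x ∈ D.Γ (max a b) := D.mono (le_max_left _ _) ha
  have hb' : y ∈ D.Γ (max a b) := D.mono (le_max_right _ _) hb
  rw [D.af_eq u x _ ha', D.af_eq u y _ hb', D.af_eq u (x * y) _ ((D.Γ _).mul_mem ha' hb')]
  simp [mul_assoc]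

theorem af_comp (u v : ∀ k, D.E k) (x : G) : D.af (u * v) x = D.af u (D.af v x) := by
  obtain ⟨a, ha⟩ := D.cover x
  rw [D.af_eq u _ a (D.af_mem_Γ v x a ha), D.af_eq v x a ha, D.af_eq (u * v) x a ha, D.pr_mul]
  simp [mul_assoc]

theorem af_one (x : G) : D.af 1 x = x := by
  rw [af, D.pr_one]; simp

/-- The action of the product of the `E k` on `G`. -/
noncomputable def θ : (∀ k, D.E k) →* MulAut G where
  toFun u :=
    { toFun := D.af u
      invFun := D.af u⁻¹
      left_inv := fun x => by rw [← D.af_comp, inv_mul_cancel, D.af_one]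
      right_inv := fun x => by rw [← D.af_comp, mul_inv_cancel, D.af_one]
      map_mul' := D.af_mul u }
  map_one' := by ext x; exact D.af_one x
  map_mul' u v := by ext x; exact D.af_comp u v x

theorem θ_apply (u : ∀ k, D.E k) (x : G) : D.θ u x = D.af u x := rfl

theorem af_single (k : ℕ) (e : D.E k) (x : G) :
    D.af (Pi.mulSingle k e) x = (e : G) * x * (e : G)⁻¹ := by
  obtain ⟨a, ha⟩ := D.cover x
  have hb : x ∈ D.Γ (max a (k + 1)) := D.mono (le_max_left _ _) ha
  have hkey : ∀ n, k + 1 ≤ n → D.pr (Pi.mulSingle k e) n = e := by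
    intro n hn
    induction n, hn using Nat.le_induction with
    | base =>
      show D.pr (Pi.mulSingle k e) k * ((Pi.mulSingle k e : ∀ k, D.E k) k : G) = e
      rw [D.pr_eq_one _ k fun l hl => by rw [Pi.mulSingle_eq_of_ne (by omega)]]
      simp
    | succ n hn ih =>
      show D.pr (Pi.mulSingle k e) n * ((Pi.mulSingle k e : ∀ k, D.E k) n : G) = e
      rw [ih, Pi.mulSingle_eq_of_ne (by omega)]; simp
  rw [D.af_eq _ x _ hb, hkey _ (le_max_right _ _)]

/-- The subgroup `S . Ebar` of the semidirect product. -/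
noncomputable def lift (S : Subgroup G) (hS : ∀ k, D.E k ≤ S) : Subgroup (SemidirectProduct G (∀ k, D.E k) D.θ) where
  carrier := {g | g.left ∈ S}
  one_mem' := S.one_mem
  mul_mem' := by
    intro g g' hg hg'
    show g.left * D.θ g.right g'.left ∈ S
    refine S.mul_mem hg ?_
    rw [D.θ_apply, af]
    have hp : D.pr g.right (D.idx g'.left) ∈ S := D.pr_mem _ S _ fun k _ => hS k (g.right k).2
    exact S.mul_mem (S.mul_mem hp hg') (S.inv_mem hp)
  inv_mem' := by
    intro g hg
    show D.θ g.right⁻¹ g.left⁻¹ ∈ S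
    rw [D.θ_apply, af]
    have hp : D.pr g.right⁻¹ (D.idx g.left⁻¹) ∈ S := D.pr_mem _ S _ fun k _ =>
      hS k (g.right⁻¹ k).2
    exact S.mul_mem (S.mul_mem hp (S.inv_mem hg)) (S.inv_mem hp)

theorem mem_lift (S : Subgroup G) (hS : ∀ k, D.E k ≤ S)
    (g : SemidirectProduct G (∀ k, D.E k) D.θ) : g ∈ D.lift S hS ↔ g.left ∈ S := Iff.rfl

end Chain

/-- Universal property of the amalgamated product for two subgroups. -/
def IsAmalgam {G : Type} [Group G] (A B : Subgroup G) : Prop :=
  ∀ (K : Type) [Group K] (f : A →* K) (g : B →* K),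
    (∀ x (hA : x ∈ A) (hB : x ∈ B), f ⟨x, hA⟩ = g ⟨x, hB⟩) →
    ∃ h : G →* K, (∀ a : A, h a = f a) ∧ ∀ b : B, h b = g b

section

variable {G : Type} [Group G] (D : Chain G) (A B : Subgroup G)
  (hA : ∀ k, D.E k ≤ A) (hB : ∀ k, D.E k ≤ B)

/-- The two factors. -/
noncomputable def Sg : Bool → Subgroup (SemidirectProduct G (∀ k, D.E k) D.θ)
  | true => D.lift A hA
  | false => D.lift B hB

/-- The amalgamated subgroup. -/
noncomputable def Hg : Subgroup (SemidirectProduct G (∀ k, D.E k) D.θ) :=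
  D.lift (A ⊓ B) (fun k => le_inf (hA k) (hB k))

theorem Hg_le (i : Bool) : Hg D A B hA hB ≤ Sg D A B hA hB i := by
  intro g hg
  cases i
  · exact hg.2
  · exact hg.1

/-- The inclusions. -/
noncomputable def φg (i : Bool) : Hg D A B hA hB →* Sg D A B hA hB i := Subgroup.inclusion (Hg_le D A B hA hB i)

theorem reduction2 (D : Chain G) [Countable G] (A B : Subgroup G) (hgen : A ⊔ B = ⊤)
    (huniv : IsAmalgam A B)
    (hAB : ¬ A ≤ B) (hBA : ¬ B ≤ A) (hE : ∀ k, D.E k ≤ A ⊓ B)
    (hd : ∀ k0 (M : Subgroup G), (∀ k ≥ k0, D.E k ≤ M) → ¬ IsCoatom M)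
    (he : ∀ n > 0, ∀ x, ∃ y, y ^ n * x⁻¹ ∈ commutator G ⊔ ⨆ k, D.E k) :
    ¬ (∀ (G : Bool → Type) [∀ i, Group (G i)] (H : Type) [Group H]
      (φ : ∀ i, H →* G i),
      (∀ i, Function.Injective (φ i)) →
      (∀ i, ¬ Function.Surjective (φ i)) →
      ∃ M : Subgroup (Monoid.PushoutI φ), IsCoatom M) := by
  intro hall
  have hA : ∀ k, D.E k ≤ A := fun k => (hE k).trans inf_le_left
  have hB : ∀ k, D.E k ≤ B := fun k => (hE k).trans inf_le_right
  obtain ⟨M, hM⟩ := hall (fun i => Sg D A B hA hB i) (Hg D A B hA hB) (φg D A B hA hB)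
    (fun i => Subgroup.inclusion_injective _) (by
      intro i hi
      cases i
      · apply hBA
        intro b hb
        obtain ⟨⟨x, hx⟩, hx'⟩ := hi ⟨SemidirectProduct.inl b, hb⟩
        have h1 := congrArg Subtype.val hx'
        have h2 : x = SemidirectProduct.inl b := h1
        rw [h2] at hx
        exact hx.1
      · apply hAB
        intro b hb
        obtain ⟨⟨x, hx⟩, hx'⟩ := hi ⟨SemidirectProduct.inl b, hb⟩
        have h1 := congrArg Subtype.val hx'
        have h2 : x = SemidirectProduct.inl b := h1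
        rw [h2] at hx
        exact hx.2)
  set P := Monoid.PushoutI (φg D A B hA hB) with hP
  -- the embeddings
  let oA : Sg D A B hA hB true →* P := Monoid.PushoutI.of (φ := φg D A B hA hB) true
  let oB : Sg D A B hA hB false →* P := Monoid.PushoutI.of (φ := φg D A B hA hB) false
  let o0 : Hg D A B hA hB →* P := Monoid.PushoutI.base (φg D A B hA hB)
  have oA0 : ∀ x : Hg D A B hA hB, oA (φg D A B hA hB true x) = o0 x := fun x =>
    Monoid.PushoutI.of_apply_eq_base (φg D A B hA hB) true x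
  have oB0 : ∀ x : Hg D A B hA hB, oB (φg D A B hA hB false x) = o0 x := fun x =>
    Monoid.PushoutI.of_apply_eq_base (φg D A B hA hB) false x
  let fA : A →* P := oA.comp
    { toFun := fun a => (⟨SemidirectProduct.inl (a : G), a.2⟩ : Sg D A B hA hB true)
      map_one' := by apply Subtype.ext; simp
      map_mul' := fun a b => by apply Subtype.ext; simp }
  let fB : B →* P := oB.comp
    { toFun := fun a => (⟨SemidirectProduct.inl (a : G), a.2⟩ : Sg D A B hA hB false)
      map_one' := by apply Subtype.ext; simp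
      map_mul' := fun a b => by apply Subtype.ext; simp }
  obtain ⟨j, hjA, hjB⟩ := huniv P fA fB (by
    intro x hxA hxB
    have h1 := oA0 ⟨SemidirectProduct.inl x, ⟨hxA, hxB⟩⟩
    have h2 := oB0 ⟨SemidirectProduct.inl x, ⟨hxA, hxB⟩⟩
    exact h1.trans h2.symm)
  let s : (∀ k, D.E k) →* P := o0.comp
    { toFun := fun u => (⟨SemidirectProduct.inr u, (A ⊓ B).one_mem⟩ : Hg D A B hA hB)
      map_one' := by apply Subtype.ext; simp
      map_mul' := fun a b => by apply Subtype.ext; simp }
  have hsA : ∀ u : ∀ k, D.E k,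
      s u = oA ⟨SemidirectProduct.inr u, A.one_mem⟩ := fun u => (oA0 _).symm
  have hsB : ∀ u : ∀ k, D.E k,
      s u = oB ⟨SemidirectProduct.inr u, B.one_mem⟩ := fun u => (oB0 _).symm
  have hjA' : ∀ a (ha : a ∈ A), j a = oA ⟨SemidirectProduct.inl a, ha⟩ := fun a ha => hjA ⟨a, ha⟩
  have hjB' : ∀ a (ha : a ∈ B), j a = oB ⟨SemidirectProduct.inl a, ha⟩ := fun a ha => hjB ⟨a, ha⟩
  have hrel : ∀ (u : ∀ k, D.E k) (x : G), s u * j x * (s u)⁻¹ = j (D.θ u x) := by
    intro u
    have hcomp : (MulAut.conj (s u)).toMonoidHom.comp j = j.comp (D.θ u).toMonoidHom := by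
      apply MonoidHom.eq_of_eqOn_dense (s := (A : Set G) ∪ B)
      · rw [Subgroup.closure_union, Subgroup.closure_eq, Subgroup.closure_eq, hgen]
      · rintro x (hx | hx)
        · have hx' : D.θ u x ∈ A := by
            rw [D.θ_apply, Chain.af]
            have hp : D.pr u (D.idx x) ∈ A := D.pr_mem _ A _ fun k _ => hA k (u k).2
            exact A.mul_mem (A.mul_mem hp hx) (A.inv_mem hp)
          show s u * j x * (s u)⁻¹ = j (D.θ u x)
          rw [hsA, hjA' x hx, hjA' _ hx', ← map_mul, ← map_inv, ← map_mul]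
          congr 1
          apply Subtype.ext
          show (SemidirectProduct.inr u * SemidirectProduct.inl x * (SemidirectProduct.inr u)⁻¹ :
            SemidirectProduct G (∀ k, D.E k) D.θ) = SemidirectProduct.inl (D.θ u x)
          rw [SemidirectProduct.inl_aut]
          simp
        · have hx' : D.θ u x ∈ B := by
            rw [D.θ_apply, Chain.af]
            have hp : D.pr u (D.idx x) ∈ B := D.pr_mem _ B _ fun k _ => hB k (u k).2
            exact B.mul_mem (B.mul_mem hp hx) (B.inv_mem hp)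
          show s u * j x * (s u)⁻¹ = j (D.θ u x)
          rw [hsB, hjB' x hx, hjB' _ hx', ← map_mul, ← map_inv, ← map_mul]
          congr 1
          apply Subtype.ext
          show (SemidirectProduct.inr u * SemidirectProduct.inl x * (SemidirectProduct.inr u)⁻¹ :
            SemidirectProduct G (∀ k, D.E k) D.θ) = SemidirectProduct.inl (D.θ u x)
          rw [SemidirectProduct.inl_aut]
          simp
    intro x
    exact DFunLike.congr_fun hcomp x
  have h1 : ∀ g : P, ∃ x ē, g = j x * s ē := by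
    intro g
    induction g using Monoid.PushoutI.induction_on with
    | of i g =>
      obtain ⟨g, hg⟩ := g
      cases i
      · refine ⟨g.left, g.right, ?_⟩
        rw [hsB, hjB' _ hg, ← map_mul]
        show oB _ = _
        congr 1
        apply Subtype.ext
        show g = SemidirectProduct.inl g.left * SemidirectProduct.inr g.right
        rw [SemidirectProduct.inl_left_mul_inr_right]
      · refine ⟨g.left, g.right, ?_⟩
        rw [hsA, hjA' _ hg, ← map_mul]
        show oA _ = _
        congr 1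
        apply Subtype.ext
        show g = SemidirectProduct.inl g.left * SemidirectProduct.inr g.right
        rw [SemidirectProduct.inl_left_mul_inr_right]
    | base g =>
      obtain ⟨g, hg⟩ := g
      refine ⟨g.left, g.right, ?_⟩
      have := oA0 ⟨g, hg⟩
      show o0 _ = _
      rw [← this, hsA, hjA' _ hg.1, ← map_mul]
      congr 1
      apply Subtype.ext
      show g = SemidirectProduct.inl g.left * SemidirectProduct.inr g.right
      rw [SemidirectProduct.inl_left_mul_inr_right]
    | mul a b ha hb =>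
      obtain ⟨x, u, rfl⟩ := ha
      obtain ⟨y, v, rfl⟩ := hb
      refine ⟨x * D.θ u y, u * v, ?_⟩
      rw [map_mul, map_mul, ← hrel u y]
      group
  let DD : Data G P :=
    { Γ := D.Γ
      mono := D.mono
      cover := D.cover
      E := D.E
      hEΓ := D.hEΓ
      comm := D.comm
      ab := D.ab
      div := D.div
      j := j
      s := s
      h1 := h1
      h2 := by
        intro m x hx u hu
        have := hrel u x
        rw [D.θ_apply, D.af_eq u x m hx, D.pr_eq_one u m hu] at this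
        rw [mul_inv_eq_iff_eq_mul] at this
        rw [this]; simp
      h3 := by
        intro k e x
        have := hrel (Pi.mulSingle k e) x
        rw [D.θ_apply, D.af_single] at this
        rw [← this]; simp }
  exact DD.no_coatom he hd M hM

/-- The first form of the reduction, with a hypothesis on normal subgroups. -/
theorem reduction (D : Chain G) [Countable G] (A B : Subgroup G) (hgen : A ⊔ B = ⊤)
    (huniv : IsAmalgam A B)
    (hAB : ¬ A ≤ B) (hBA : ¬ B ≤ A) (hE : ∀ k, D.E k ≤ A ⊓ B)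
    (hd : ∀ k0 (M : Subgroup G), (∀ k ≥ k0, D.E k ≤ M) → ¬ IsCoatom M)
    (he : ∀ k (N : Subgroup G), N.Normal → (∀ e ∈ D.E k, ∀ x, e * x * e⁻¹ * x⁻¹ ∈ N) →
      (∀ x y, x * y * x⁻¹ * y⁻¹ ∈ N) ∧ ∀ n > 0, ∀ x, ∃ y, y ^ n * x⁻¹ ∈ N) :
    ¬ (∀ (G : Bool → Type) [∀ i, Group (G i)] (H : Type) [Group H]
      (φ : ∀ i, H →* G i),
      (∀ i, Function.Injective (φ i)) →
      (∀ i, ¬ Function.Surjective (φ i)) →
      ∃ M : Subgroup (Monoid.PushoutI φ), IsCoatom M) :=
  reduction2 D A B hgen huniv hAB hBA hE hd (fun n hn x => by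
    obtain ⟨-, h⟩ := he 0 (commutator G) inferInstance (fun e _ x => Data.mem_commutator e x)
    obtain ⟨y, hy⟩ := h n hn x
    exact ⟨y, Subgroup.mem_sup_left hy⟩)

end

end Pool.Agent.Helper62.Amal
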