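import Mathlib
import Pool.Agent.Helper62.Amal.Reduction

set_option autoImplicit false

namespace Pool.Agent.Helper62.Amal

open Monoid

section

variable {G : Type} [Group G]

/-- The two subgroups indexed by `Bool`: `true` is `A`, `false` is `B`. -/
def SS (A B : Subgroup G) : Bool → Subgroup G
  | true => A
  | false => B

/-- A letter of type `i`: in the factor `i` but not in the other one. -/
def Lt (A B : Subgroup G) (i : Bool) (g : G) : Prop := g ∈ SS A B i ∧ g ∉ SS A B (!i)

/-- `RW A B i j n g`: the element `g` is a reduced word of `n` letters, the first of type `i`,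
the last of type `j`. -/
inductive RW (A B : Subgroup G) : Bool → Bool → ℕ → G → Prop
  | one (i : Bool) (g : G) (h : Lt A B i g) : RW A B i i 1 g
  | cons (i j : Bool) (n : ℕ) (g w : G) (h : Lt A B i g) (hw : RW A B (!i) j n w) :
      RW A B i j (n + 1) (g * w)

variable {A B : Subgroup G}

theorem Lt.not_not {i : Bool} {g : G} (h : Lt A B i g) : Lt A B (!!i) g := by
  rwa [Bool.not_not]

theorem Lt.mul_C {i : Bool} {g c : G} (h : Lt A B i g) (hA : c ∈ A) (hB : c ∈ B) :
    Lt A B i (g * c) := by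
  have hc : ∀ i, c ∈ SS A B i := by intro i; cases i <;> assumption
  exact ⟨(SS A B i).mul_mem h.1 (hc i), fun h' => h.2 (((SS A B (!i)).mul_mem_cancel_right
    (hc _)).1 h')⟩

theorem Lt.C_mul {i : Bool} {g c : G} (h : Lt A B i g) (hA : c ∈ A) (hB : c ∈ B) :
    Lt A B i (c * g) := by
  have hc : ∀ i, c ∈ SS A B i := by intro i; cases i <;> assumption
  exact ⟨(SS A B i).mul_mem (hc i) h.1, fun h' => h.2 (((SS A B (!i)).mul_mem_cancel_left
    (hc _)).1 h')⟩

theorem Lt.inv {i : Bool} {g : G} (h : Lt A B i g) : Lt A B i g⁻¹ :=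
  ⟨(SS A B i).inv_mem h.1, fun h' => h.2 ((SS A B (!i)).inv_mem_iff.1 h')⟩

theorem RW.pos {i j : Bool} {n : ℕ} {w : G} (h : RW A B i j n w) : 0 < n := by
  cases h <;> omega

theorem RW.mul_C {i j : Bool} {n : ℕ} {w c : G} (h : RW A B i j n w) (hA : c ∈ A) (hB : c ∈ B) :
    RW A B i j n (w * c) := by
  induction h with
  | one i g h => exact RW.one i _ (h.mul_C hA hB)
  | cons i j n g w h hw ih => rw [mul_assoc]; exact RW.cons i j n g _ h ih

theorem RW.C_mul {i j : Bool} {n : ℕ} {w c : G} (h : RW A B i j n w) (hA : c ∈ A) (hB : c ∈ B) :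
    RW A B i j n (c * w) := by
  cases h with
  | one _ g h => exact RW.one i _ (h.C_mul hA hB)
  | cons _ _ n g w h hw => rw [← mul_assoc]; exact RW.cons i j n _ _ (h.C_mul hA hB) hw

theorem RW.snoc {i j : Bool} {n : ℕ} {w g : G} (h : RW A B i j n w) (hg : Lt A B (!j) g) :
    RW A B i (!j) (n + 1) (w * g) := by
  induction h with
  | one i s h =>
    exact RW.cons i (!i) 1 s g h (RW.one (!i) g hg)
  | cons i j n s w h hw ih => rw [mul_assoc]; exact RW.cons i (!j) (n + 1) s _ h (ih hg)

theorem RW.unsnoc {i j : Bool} {n : ℕ} {w : G} (h : RW A B i j (n + 2) w) :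
    ∃ w' g, w = w' * g ∧ RW A B i (!j) (n + 1) w' ∧ Lt A B j g := by
  induction n generalizing i w with
  | zero =>
    cases h with
    | cons _ _ _ s w h hw =>
      cases hw with
      | one _ _ h' =>
        exact ⟨s, w, rfl, by simpa using RW.one i s h, h'⟩
      | cons _ _ m _ _ _ hw' => exact absurd hw'.pos (by omega)
  | succ n ih =>
    cases h with
    | cons _ _ _ s w h hw =>
      obtain ⟨w', g, rfl, h1, h2⟩ := ih hw
      exact ⟨s * w', g, by rw [mul_assoc], RW.cons i (!j) (n + 1) s w' h h1, h2⟩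

theorem RW.uncons {i j : Bool} {n : ℕ} {w : G} (h : RW A B i j (n + 2) w) :
    ∃ g w', w = g * w' ∧ Lt A B i g ∧ RW A B (!i) j (n + 1) w' := by
  cases h with
  | cons _ _ _ s w h hw => exact ⟨s, w, rfl, h, hw⟩

theorem RW.of_one {i j : Bool} {w : G} (h : RW A B i j 1 w) : i = j ∧ Lt A B i w := by
  cases h with
  | one _ _ h => exact ⟨rfl, h⟩
  | cons _ _ n _ _ _ hw => exact absurd hw.pos (by omega)

theorem RW.inv {i j : Bool} {n : ℕ} {w : G} (h : RW A B i j n w) : RW A B j i n w⁻¹ := by
  induction h with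
  | one i g h => exact RW.one i _ h.inv
  | cons i j n g w h hw ih =>
    rw [mul_inv_rev]
    have := ih.snoc (g := g⁻¹) (by rw [Bool.not_not]; exact h.inv)
    rwa [Bool.not_not] at this

/-- Left multiplication of a word by a letter or an element of a factor. -/
theorem RW.smul_left {i k j : Bool} {n : ℕ} {s w : G} (hs : s ∈ SS A B i) (h : RW A B k j n w) :
    (s * w ∈ A ∧ s * w ∈ B) ∨ ∃ i' j' m, m ≤ n + 1 ∧ RW A B i' j' m (s * w) := by
  by_cases hsC : s ∈ SS A B (!i)
  · have hA : s ∈ A := by cases i <;> assumption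
    have hB : s ∈ B := by cases i <;> assumption
    exact Or.inr ⟨k, j, n, by omega, h.C_mul hA hB⟩
  · by_cases hk : k = i
    · subst hk
      cases h with
      | one _ _ h' =>
        by_cases hw : s * w ∈ SS A B (!k)
        · left
          have h3 := (SS A B k).mul_mem hs h'.1
          cases k
          · exact ⟨hw, h3⟩
          · exact ⟨h3, hw⟩
        · exact Or.inr ⟨k, k, 1, by omega, RW.one k _ ⟨(SS A B k).mul_mem hs h'.1, hw⟩⟩
      | cons _ _ n g w h' hw =>
        by_cases hw' : s * g ∈ SS A B (!k)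
        · have h3 := (SS A B k).mul_mem hs h'.1
          have hA : s * g ∈ A := by cases k <;> assumption
          have hB : s * g ∈ B := by cases k <;> assumption
          refine Or.inr ⟨!k, j, n, by omega, ?_⟩
          rw [← mul_assoc]
          exact hw.C_mul hA hB
        · refine Or.inr ⟨k, j, n + 1, by omega, ?_⟩
          rw [← mul_assoc]
          exact RW.cons k j n _ w ⟨(SS A B k).mul_mem hs h'.1, hw'⟩ hw
    · have hk' : k = !i := by cases k <;> cases i <;> simp_all
      subst hk'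
      exact Or.inr ⟨i, j, n + 1, by omega, RW.cons i j n s w ⟨hs, hsC⟩ h⟩

theorem RW.exists_of_gen (hgen : A ⊔ B = ⊤) (g : G) :
    (g ∈ A ∧ g ∈ B) ∨ ∃ i j n, RW A B i j n g := by
  have hg : g ∈ A ⊔ B := by rw [hgen]; trivial
  rw [← Subgroup.closure_eq A, ← Subgroup.closure_eq B, ← Subgroup.closure_union] at hg
  induction hg using Subgroup.closure_induction_left with
  | one => exact Or.inl ⟨A.one_mem, B.one_mem⟩
  | mul_left x hx y hy ih =>
    have hx' : ∃ i, x ∈ SS A B i := by
      rcases hx with hx | hx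
      · exact ⟨true, hx⟩
      · exact ⟨false, hx⟩
    obtain ⟨i, hi⟩ := hx'
    rcases ih with ⟨h1, h2⟩ | ⟨i', j, n, h⟩
    · by_cases hxi : x ∈ SS A B (!i)
      · left
        have hA : x ∈ A := by cases i <;> assumption
        have hB : x ∈ B := by cases i <;> assumption
        exact ⟨A.mul_mem hA h1, B.mul_mem hB h2⟩
      · right
        have : Lt A B i x := ⟨hi, hxi⟩
        exact ⟨i, i, 1, RW.one i _ (this.mul_C h1 h2)⟩
    · rcases h.smul_left hi with h | ⟨i', j', m, -, h⟩
      · exact Or.inl h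
      · exact Or.inr ⟨i', j', m, h⟩
  | inv_mul_cancel x hx y hy ih =>
    have hx' : ∃ i, x⁻¹ ∈ SS A B i := by
      rcases hx with hx | hx
      · exact ⟨true, A.inv_mem hx⟩
      · exact ⟨false, B.inv_mem hx⟩
    obtain ⟨i, hi⟩ := hx'
    rcases ih with ⟨h1, h2⟩ | ⟨i', j, n, h⟩
    · by_cases hxi : x⁻¹ ∈ SS A B (!i)
      · left
        have hA : x⁻¹ ∈ A := by cases i <;> assumption
        have hB : x⁻¹ ∈ B := by cases i <;> assumption
        exact ⟨A.mul_mem hA h1, B.mul_mem hB h2⟩
      · right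
        have : Lt A B i x⁻¹ := ⟨hi, hxi⟩
        exact ⟨i, i, 1, RW.one i _ (this.mul_C h1 h2)⟩
    · rcases h.smul_left hi with h | ⟨i', j', m, -, h⟩
      · exact Or.inl h
      · exact Or.inr ⟨i', j', m, h⟩

/-- The maps of the amalgam. -/
def ph (A B : Subgroup G) (i : Bool) : (A ⊓ B : Subgroup G) →* SS A B i :=
  Subgroup.inclusion (by cases i <;> [exact inf_le_right; exact inf_le_left])

theorem ph_injective (A B : Subgroup G) (i : Bool) : Function.Injective (ph A B i) :=
  Subgroup.inclusion_injective _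

theorem mem_range_ph {i : Bool} (x : SS A B i) : x ∈ (ph A B i).range ↔ (x : G) ∈ SS A B (!i) := by
  constructor
  · rintro ⟨⟨y, hy⟩, rfl⟩
    cases i
    · exact hy.1
    · exact hy.2
  · intro h
    obtain ⟨x, hx⟩ := x
    refine ⟨⟨x, ?_⟩, ?_⟩
    · cases i
      · exact ⟨h, hx⟩
      · exact ⟨hx, h⟩
    · rfl

theorem exists_pushoutHom (huniv : IsAmalgam A B) :
    ∃ F : G →* PushoutI (ph A B), ∀ i (x : SS A B i), F x = PushoutI.of (φ := ph A B) i x := by
  obtain ⟨F, hF1, hF2⟩ := huniv (PushoutI (ph A B))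
    (PushoutI.of (φ := ph A B) true) (PushoutI.of (φ := ph A B) false) (by
      intro x hA hB
      have h1 := PushoutI.of_apply_eq_base (ph A B) true ⟨x, hA, hB⟩
      have h2 := PushoutI.of_apply_eq_base (ph A B) false ⟨x, hA, hB⟩
      exact h1.trans h2.symm)
  refine ⟨F, ?_⟩
  intro i x
  cases i
  · exact hF2 x
  · exact hF1 x

theorem RW.exists_word {i j : Bool} {n : ℕ} {w : G} (h : RW A B i j n w)
    (F : G →* PushoutI (ph A B)) (hF : ∀ i (x : SS A B i), F x = PushoutI.of (φ := ph A B) i x) :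
    ∃ W : CoprodI.Word (fun i : Bool => SS A B i), PushoutI.Reduced (ph A B) W ∧
      W.fstIdx = some i ∧ PushoutI.ofCoprodI W.prod = F w ∧ W.toList.length = n := by
  induction h with
  | one i g h =>
    have h1 : (⟨g, h.1⟩ : SS A B i) ≠ 1 := by
      intro h'
      apply h.2
      have : g = 1 := congrArg Subtype.val h'
      rw [this]; exact Subgroup.one_mem _
    refine ⟨CoprodI.Word.cons (⟨g, h.1⟩ : SS A B i) CoprodI.Word.empty (by simp
      [CoprodI.Word.fstIdx]) h1, ?_, ?_, ?_, ?_⟩
    · intro x hx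
      simp [CoprodI.Word.cons] at hx
      subst hx
      show (⟨g, h.1⟩ : SS A B i) ∉ (ph A B i).range
      rw [mem_range_ph]
      exact h.2
    · simp [CoprodI.Word.fstIdx_cons]
    · rw [CoprodI.Word.prod_cons]
      simp only [CoprodI.Word.prod_empty, mul_one, PushoutI.ofCoprodI_of]
      exact (hF i ⟨g, h.1⟩).symm
    · simp [CoprodI.Word.cons]
  | cons i j n g w h hw ih =>
    obtain ⟨W, h1, h2, h3, h4⟩ := ih
    have h5 : (⟨g, h.1⟩ : SS A B i) ≠ 1 := by
      intro h'
      apply h.2
      have : g = 1 := congrArg Subtype.val h'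
      rw [this]; exact Subgroup.one_mem _
    refine ⟨CoprodI.Word.cons (⟨g, h.1⟩ : SS A B i) W (by rw [h2]; simp) h5, ?_, ?_, ?_, ?_⟩
    · intro x hx
      simp only [CoprodI.Word.cons, List.mem_cons] at hx
      rcases hx with hx | hx
      · subst hx
        show (⟨g, h.1⟩ : SS A B i) ∉ (ph A B i).range
        rw [mem_range_ph]
        exact h.2
      · exact h1 x hx
    · simp [CoprodI.Word.fstIdx_cons]
    · rw [CoprodI.Word.prod_cons, map_mul, map_mul, h3, PushoutI.ofCoprodI_of]
      congr 1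
      exact (hF i ⟨g, h.1⟩).symm
    · simp [CoprodI.Word.cons, h4]

theorem RW.not_mem_C (huniv : IsAmalgam A B) {i j : Bool} {n : ℕ} {w : G} (h : RW A B i j n w) :
    ¬ (w ∈ A ∧ w ∈ B) := by
  rintro ⟨hA, hB⟩
  obtain ⟨F, hF⟩ := exists_pushoutHom huniv
  obtain ⟨W, h1, h2, h3, h4⟩ := h.exists_word F hF
  have := h1.eq_empty_of_mem_range (ph_injective A B) (by
    rw [h3]
    refine ⟨⟨w, hA, hB⟩, ?_⟩
    rw [← PushoutI.of_apply_eq_base (ph A B) true]
    exact (hF true ⟨w, hA⟩).symm)
  subst this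
  simp [CoprodI.Word.fstIdx, CoprodI.Word.empty] at h2

theorem RW.ne_one (huniv : IsAmalgam A B) {i j : Bool} {n : ℕ} {w : G} (h : RW A B i j n w) :
    w ≠ 1 := by
  rintro rfl
  exact h.not_mem_C huniv ⟨A.one_mem, B.one_mem⟩

/-- Elements of `B` in `⟨A, β⟩` lie in `β`. -/
theorem mem_of_mem_sup (huniv : IsAmalgam A B) (β : Subgroup G) (hCβ : A ⊓ B ≤ β)
    (b : G) (hb : b ∈ B) (hbβ : b ∈ A ⊔ β) (hβB : β ≤ B) : b ∈ β := by
  classical
  by_contra hnot
  let L : G →* Equiv.Perm (G × Bool) :=
    { toFun := fun g =>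
        { toFun := fun p => (g * p.1, p.2)
          invFun := fun p => (g⁻¹ * p.1, p.2)
          left_inv := fun p => by simp
          right_inv := fun p => by simp }
      map_one' := by ext p <;> simp
      map_mul' := fun g h => by ext p <;> simp [mul_assoc] }
  let t : Equiv.Perm (G × Bool) :=
    { toFun := fun p => (p.1, if p.1 ∈ β then !p.2 else p.2)
      invFun := fun p => (p.1, if p.1 ∈ β then !p.2 else p.2)
      left_inv := fun p => by
        rcases p with ⟨x, y⟩
        by_cases h : x ∈ β <;> simp [h]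
      right_inv := fun p => by
        rcases p with ⟨x, y⟩
        by_cases h : x ∈ β <;> simp [h] }
  have ht : ∀ g ∈ β, t * L g * t⁻¹ = L g := by
    intro g hg
    rw [mul_inv_eq_iff_eq_mul]
    ext p
    · rfl
    · show (if g * p.1 ∈ β then !p.2 else p.2) = (if p.1 ∈ β then !p.2 else p.2)
      simp [β.mul_mem_cancel_left hg]
  obtain ⟨h, hh1, hh2⟩ := huniv (Equiv.Perm (G × Bool)) (L.comp A.subtype)
    (((MulAut.conj t).toMonoidHom.comp L).comp B.subtype) (by
      intro x hA hB
      show L x = t * L x * t⁻¹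
      rw [ht x (hCβ ⟨hA, hB⟩)])
  have hle : A ⊔ β ≤ MonoidHom.eqLocus h L := by
    rw [sup_le_iff]
    constructor
    · intro a ha
      exact hh1 ⟨a, ha⟩
    · intro x hx
      have := hh2 ⟨x, hβB hx⟩
      show h x = L x
      rw [show h x = t * L x * t⁻¹ from this, ht x hx]
  have h1 : h b = L b := hle hbβ
  have h2 : h b = t * L b * t⁻¹ := hh2 ⟨b, hb⟩
  rw [h1, eq_mul_inv_iff_mul_eq] at h2
  have h3 := congrArg (fun f : Equiv.Perm (G × Bool) => (f (1, true)).2) h2
  have h4 : (L b * t) (1, true) = (b * 1, if (1 : G) ∈ β then !true else true) := rfl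
  have h5 : (t * L b) (1, true) = (b * 1, if b * 1 ∈ β then !true else true) := rfl
  simp only [h4, h5] at h3
  simp [β.one_mem, hnot] at h3

end

end Pool.Agent.Helper62.Amal
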