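import Mathlib
import Pool.Agent.Helper62.Amal.Words

set_option autoImplicit false

namespace Pool.Agent.Helper62.Amal

/-- The countable group with all its properties. -/
structure Tower (G : Type) [Group G] extends Chain G where
  A : Subgroup G
  B : Subgroup G
  gen : A ⊔ B = ⊤
  univ : IsAmalgam A B
  hEC : ∀ k, E k ≤ A ⊓ B
  π : G →* Multiplicative ℚ
  πB : ∀ b ∈ B, π b = 1
  πA : ∀ a ∈ A, π a = 1 → a ∈ B
  πsurj : ∀ q, ∃ a ∈ A, π a = q
  β : ℕ → Subgroup G
  β0 : β 0 = A ⊓ B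
  βlt : ∀ j, β j < β (j + 1)
  βB : ∀ b, b ∈ B ↔ ∃ j, b ∈ β j
  βidx : ∀ j, ∀ b ∈ β (j + 1), b ∉ β j → ∃ r ∈ β (j + 1), r ∉ β j ∧ r * b ∉ β j
  U : ∀ j, ∀ b ∈ β (j + 1), b ∉ β j → ∀ b2 ∈ β (j + 1), b2 ∉ β j →
    ∀ (i : Bool) (n : ℕ) (w : G), RW A B true i n w →
    ∃ c ∈ A ⊓ B, ∃ c' ∈ A ⊓ B, b2 * w = c * (b * w) * c'
  V : ∀ k y n, RW (A ⊓ Γ k) (B ⊓ Γ k) true false n y → ∀ g ∈ Γ (k + 1), g ∉ Γ k ⊔ E k →
    ∀ c ∈ Γ (k + 1), c ∈ A → c ∈ B → c ∈ Subgroup.closure ({y, g} ∪ (E k : Set G))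
  W : ∀ k, ∀ g ∈ Γ (k + 1), g ∉ Γ k ⊔ E k → ∀ n ∈ Γ k ⊔ E k, g * n * g⁻¹ ∈ Γ k ⊔ E k → n = 1
  Y : ∀ k, ∃ e ∈ E k, ∃ b ∈ B, b * e * b⁻¹ ∉ A

namespace Tower

variable {G : Type} [Group G] (T : Tower G)

theorem β_mono : Monotone T.β := monotone_nat_of_le_succ fun j => (T.βlt j).le

theorem C_le_β (j : ℕ) : T.A ⊓ T.B ≤ T.β j := by
  rw [← T.β0]; exact T.β_mono (Nat.zero_le j)

theorem β_le_B (j : ℕ) : T.β j ≤ T.B := fun b hb => (T.βB b).2 ⟨j, hb⟩

theorem exists_level (b : G) (hb : b ∈ T.B) (hbA : b ∉ T.A) : ∃ j, b ∈ T.β (j + 1) ∧ b ∉ T.β j := by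
  classical
  have h := (T.βB b).1 hb
  have h1 := Nat.find_spec h
  have h2 : Nat.find h ≠ 0 := by
    intro h0
    rw [h0, T.β0] at h1
    exact hbA h1.1
  obtain ⟨j, hj⟩ := Nat.exists_eq_succ_of_ne_zero h2
  refine ⟨j, ?_, ?_⟩
  · have : Nat.find h = j + 1 := hj
    rwa [this] at h1
  · exact Nat.find_min h (by omega)

theorem C_normal_A (a : G) (ha : a ∈ T.A) (c : G) (hc : c ∈ T.A ⊓ T.B) :
    a * c * a⁻¹ ∈ T.A ⊓ T.B := by
  have h1 : a * c * a⁻¹ ∈ T.A := T.A.mul_mem (T.A.mul_mem ha hc.1) (T.A.inv_mem ha)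
  refine ⟨h1, T.πA _ h1 ?_⟩
  rw [map_mul, map_mul, T.πB c hc.2, mul_one, ← map_mul, mul_inv_cancel, map_one]

/-- Conjugate of a subgroup. -/
def cj (x : G) (H : Subgroup G) : Subgroup G := H.comap (MulAut.conj x).toMonoidHom

theorem mem_cj (x : G) (H : Subgroup G) (g : G) : g ∈ cj x H ↔ x * g * x⁻¹ ∈ H := Iff.rfl

theorem C_le_cj (K : Subgroup G) (hK : T.A ⊓ T.B ≤ K) (a : G) (ha : a ∈ T.A) :
    T.A ⊓ T.B ≤ cj a K := by
  intro c hc
  rw [mem_cj]
  exact hK (T.C_normal_A a ha c hc)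

/-- The basic consequence of `U`. -/
theorem lemR (K : Subgroup G) (hK : T.A ⊓ T.B ≤ K) (l : ℕ) (s : G) (hs : s ∈ T.β (l + 1))
    (hs' : s ∉ T.β l) (i : Bool) (n : ℕ) (w : G) (hw : RW T.A T.B true i n w)
    (hsw : s * w ∈ K) : T.β (l + 1) ≤ K := by
  have key : ∀ b2 ∈ T.β (l + 1), b2 ∉ T.β l → b2 * s⁻¹ ∈ K := by
    intro b2 h1 h2
    obtain ⟨c, hc, c', hc', h⟩ := T.U l s hs hs' b2 h1 h2 i n w hw
    have h3 : b2 * w ∈ K := by
      rw [h]; exact K.mul_mem (K.mul_mem (hK hc) hsw) (hK hc')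
    have h4 : b2 * s⁻¹ = (b2 * w) * (s * w)⁻¹ := by group
    rw [h4]
    exact K.mul_mem h3 (K.inv_mem hsw)
  obtain ⟨r, hr, hr', hr''⟩ := T.βidx l s hs hs'
  have h1 : r ∈ K := by
    have := key (r * s) ((T.β (l + 1)).mul_mem hr hs) hr''
    simpa using this
  have h2 : s ∈ K := by
    have h3 := key r hr hr'
    have h4 := K.mul_mem (K.inv_mem h1) h3
    have h5 : s⁻¹ ∈ K := by simpa [← mul_assoc] using h4
    exact K.inv_mem_iff.1 h5
  intro t ht
  by_cases htl : t ∈ T.β l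
  · have h3 : t * s ∉ T.β l := fun h => hs' (((T.β l).mul_mem_cancel_left htl).1 h)
    have := key (t * s) ((T.β (l + 1)).mul_mem ht hs) h3
    simpa using this
  · have := K.mul_mem (key t ht htl) h2
    simpa using this

theorem lemR' (K : Subgroup G) (hK : T.A ⊓ T.B ≤ K) (s : G) (hs : Lt T.A T.B false s)
    (w : G) (hw : (w ∈ T.A ∧ w ∈ T.B) ∨ ∃ i n, RW T.A T.B true i n w)
    (hsw : s * w ∈ K) : s ∈ K ∧ w ∈ K := by
  rcases hw with ⟨h1, h2⟩ | ⟨i, n, hw⟩
  · have h3 : w ∈ K := hK ⟨h1, h2⟩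
    exact ⟨(K.mul_mem_cancel_right h3).1 hsw, h3⟩
  · obtain ⟨l, hl, hl'⟩ := T.exists_level s hs.1 hs.2
    have h3 : s ∈ K := T.lemR K hK l s hl hl' i n w hw hsw hl
    exact ⟨h3, (K.mul_mem_cancel_left h3).1 hsw⟩

theorem mul_A_right (w s : G) (i : Bool) (n : ℕ) (hw : RW T.A T.B true i n w) (hs : s ∈ T.A) :
    (w * s ∈ T.A ∧ w * s ∈ T.B) ∨ ∃ i n, RW T.A T.B true i n (w * s) := by
  by_cases hsB : s ∈ T.B
  · exact Or.inr ⟨i, n, hw.mul_C hs hsB⟩
  · cases i with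
    | false =>
      exact Or.inr ⟨true, n + 1, hw.snoc (j := false) ⟨hs, hsB⟩⟩
    | true =>
      obtain ⟨m, rfl⟩ : ∃ m, n = m + 1 := ⟨n - 1, by have := hw.pos; omega⟩
      cases m with
      | zero =>
        obtain ⟨-, h⟩ := hw.of_one
        have h1 : w * s ∈ T.A := T.A.mul_mem h.1 hs
        by_cases h2 : w * s ∈ T.B
        · exact Or.inl ⟨h1, h2⟩
        · exact Or.inr ⟨true, 1, RW.one true _ ⟨h1, h2⟩⟩
      | succ m =>
        obtain ⟨w', g, rfl, h1, h2⟩ := hw.unsnoc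
        have h3 : g * s ∈ T.A := T.A.mul_mem h2.1 hs
        by_cases h4 : g * s ∈ T.B
        · right
          refine ⟨false, m + 1, ?_⟩
          rw [mul_assoc]
          exact h1.mul_C h3 h4
        · right
          refine ⟨true, m + 1 + 1, ?_⟩
          rw [mul_assoc]
          exact h1.snoc (j := false) (g := g * s) ⟨h3, h4⟩

theorem lemQ (n : ℕ) : ∀ (K : Subgroup G), T.A ⊓ T.B ≤ K → ∀ (i j : Bool) (m : ℕ) (w : G),
    m ≤ n → RW T.A T.B i j m w → w ∈ K → ∃ a ∈ T.A, a ∈ K ∧ T.π a = T.π w := by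
  induction n using Nat.strong_induction_on with
  | _ n ih =>
  intro K hK i j m w hm hw hwK
  obtain ⟨m, rfl⟩ : ∃ m', m = m' + 1 := ⟨m - 1, by have := hw.pos; omega⟩
  cases i with
  | false =>
    cases m with
    | zero =>
      obtain ⟨-, h⟩ := hw.of_one
      exact ⟨1, T.A.one_mem, K.one_mem, by rw [map_one, T.πB w h.1]⟩
    | succ m =>
      obtain ⟨s, w', rfl, h1, h2⟩ := hw.uncons
      obtain ⟨h3, h4⟩ := T.lemR' K hK s h1 w' (Or.inr ⟨j, _, h2⟩) hwK
      obtain ⟨a, ha, haK, hπ⟩ := ih (m + 1) (by omega) K hK _ _ _ w' le_rfl h2 h4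
      exact ⟨a, ha, haK, by rw [hπ, map_mul, T.πB s h1.1, one_mul]⟩
  | true =>
    cases m with
    | zero =>
      obtain ⟨-, h⟩ := hw.of_one
      exact ⟨w, h.1, hwK, rfl⟩
    | succ m =>
      obtain ⟨s, w', rfl, h1, h2⟩ := hw.uncons
      have hK' := T.C_le_cj K hK s h1.1
      cases m with
      | zero =>
        obtain ⟨-, h3⟩ := h2.of_one
        have h4 : w' * s ∈ cj s K := by
          rw [mem_cj]; simpa [mul_assoc] using hwK
        obtain ⟨-, h5⟩ := T.lemR' (cj s K) hK' w' h3 s (Or.inr ⟨true, 1, RW.one true s h1⟩) h4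
        rw [mem_cj] at h5
        refine ⟨s, h1.1, by simpa using h5, ?_⟩
        rw [map_mul, T.πB w' h3.1, mul_one]
      | succ m =>
        obtain ⟨b, w'', rfl, h3, h4⟩ := h2.uncons
        have h4' : RW T.A T.B true j (m + 1) w'' := h4
        have h5 : b * (w'' * s) ∈ cj s K := by
          rw [mem_cj]; simpa [mul_assoc] using hwK
        obtain ⟨-, h6⟩ := T.lemR' (cj s K) hK' b h3 (w'' * s)
          (T.mul_A_right w'' s j (m + 1) h4' h1.1) h5
        have h7 : s * w'' ∈ K := by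
          rw [mem_cj] at h6; simpa [mul_assoc] using h6
        have hπ : T.π (s * (b * w'')) = T.π (s * w'') := by
          rw [map_mul, map_mul, map_mul, T.πB b h3.1, one_mul]
        rw [hπ]
        -- now `s * w''` is shorter
        cases m with
        | zero =>
          obtain ⟨-, h8⟩ := h4'.of_one
          exact ⟨s * w'', T.A.mul_mem h1.1 h8.1, h7, rfl⟩
        | succ m =>
          obtain ⟨g, w3, rfl, h8, h9⟩ := h4'.uncons
          have h10 : s * g ∈ T.A := T.A.mul_mem h1.1 h8.1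
          rw [← mul_assoc] at h7 ⊢
          by_cases h11 : s * g ∈ T.B
          · exact ih (m + 1) (by omega) K hK _ _ _ _ le_rfl (h9.C_mul h10 h11) h7
          · exact ih (m + 2) (by omega) K hK true j (m + 2) _ le_rfl
              (RW.cons true j (m + 1) _ w3 ⟨h10, h11⟩ h9) h7

theorem A_sup_β_ne_top (j : ℕ) : T.A ⊔ T.β j ≠ ⊤ := by
  intro h
  apply (T.βlt j).not_ge
  intro b hb
  have hbB : b ∈ T.B := T.β_le_B _ hb
  exact mem_of_mem_sup T.univ (T.β j) (T.C_le_β j) b hbB (by rw [h]; trivial) (T.β_le_B j)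

theorem exists_A_not_B : ∃ a ∈ T.A, a ∉ T.B := by
  obtain ⟨a, ha, hπ⟩ := T.πsurj (Multiplicative.ofAdd 1)
  refine ⟨a, ha, fun h => ?_⟩
  rw [T.πB a h] at hπ
  have : (0 : ℚ) = 1 := congrArg Multiplicative.toAdd hπ
  norm_num at this

theorem not_coatom_of_A_le (H : Subgroup G) (hA : T.A ≤ H) : ¬ IsCoatom H := by
  intro hH
  have hC : T.A ⊓ T.B ≤ H := inf_le_left.trans hA
  obtain ⟨a0, ha0, ha0'⟩ := T.exists_A_not_B
  have hup : ∀ l, ∀ b ∈ H, b ∈ T.β (l + 1) → b ∉ T.β l → T.β (l + 1) ≤ H := by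
    intro l b hbH hb hb'
    exact T.lemR H hC l b hb hb' true 1 a0 (RW.one true a0 ⟨ha0, ha0'⟩) (H.mul_mem hbH (hA ha0))
  by_cases hunb : ∀ l0, ∃ l ≥ l0, ∃ b ∈ H, b ∈ T.β (l + 1) ∧ b ∉ T.β l
  · apply hH.1
    rw [← top_le_iff, ← T.gen, sup_le_iff]
    refine ⟨hA, fun b hb => ?_⟩
    obtain ⟨j, hj⟩ := (T.βB b).1 hb
    obtain ⟨l, hl, b', hb', h1, h2⟩ := hunb j
    exact hup l b' hb' h1 h2 (T.β_mono (by omega) hj)
  · push Not at hunb
    obtain ⟨l0, hl0⟩ := hunb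
    have hHB : ∀ b ∈ H, b ∈ T.B → b ∈ T.β l0 := by
      intro b hb hbB
      by_cases hbA : b ∈ T.A
      · exact T.C_le_β l0 ⟨hbA, hbB⟩
      · obtain ⟨l, hl, hl'⟩ := T.exists_level b hbB hbA
        by_cases hll : l0 ≤ l
        · exact absurd (hl0 l hll b hb hl) hl'
        · exact T.β_mono (by omega) hl
    have hle : H ≤ T.A ⊔ T.β l0 := by
      intro h hh
      rcases RW.exists_of_gen T.gen h with ⟨h1, -⟩ | ⟨i, j, n, hw⟩
      · exact Subgroup.mem_sup_left h1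
      · have key : ∀ (n : ℕ) (i j : Bool) (h : G), h ∈ H → RW T.A T.B i j n h →
            h ∈ T.A ⊔ T.β l0 := by
          intro n
          induction n using Nat.strong_induction_on with
          | _ n ih =>
          intro i j h hh hw
          obtain ⟨n, rfl⟩ : ∃ n', n = n' + 1 := ⟨n - 1, by have := hw.pos; omega⟩
          cases n with
          | zero =>
            obtain ⟨-, h1⟩ := hw.of_one
            cases i with
            | true => exact Subgroup.mem_sup_left h1.1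
            | false => exact Subgroup.mem_sup_right (hHB h hh h1.1)
          | succ n =>
            obtain ⟨s, w', rfl, h1, h2⟩ := hw.uncons
            cases i with
            | true =>
              have h3 : w' ∈ H := (H.mul_mem_cancel_left (hA h1.1)).1 hh
              exact Subgroup.mul_mem _ (Subgroup.mem_sup_left h1.1)
                (ih (n + 1) (by omega) _ _ w' h3 h2)
            | false =>
              obtain ⟨h3, h4⟩ := T.lemR' H hC s h1 w' (Or.inr ⟨j, _, h2⟩) hh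
              exact Subgroup.mul_mem _ (Subgroup.mem_sup_right (hHB s h3 h1.1))
                (ih (n + 1) (by omega) _ _ w' h4 h2)
        exact key n i j h hh hw
    have h1 : H = T.A ⊔ T.β l0 := by
      rcases eq_or_lt_of_le hle with h | h
      · exact h
      · exact absurd (hH.2 _ h) (T.A_sup_β_ne_top l0)
    have h2 : H < T.A ⊔ T.β (l0 + 1) := by
      rw [h1]
      refine lt_of_le_of_ne (sup_le_sup_left (T.β_mono (by omega)) _) ?_
      intro h
      apply (T.βlt l0).not_ge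
      intro b hb
      refine mem_of_mem_sup T.univ (T.β l0) (T.C_le_β l0) b (T.β_le_B _ hb) ?_ (T.β_le_B l0)
      rw [h]
      exact Subgroup.mem_sup_right hb
    exact T.A_sup_β_ne_top (l0 + 1) (hH.2 _ h2)

theorem map_π_top (H : Subgroup G) (hH : IsCoatom H) : ∀ q, ∃ h ∈ H, T.π h = q := by
  by_contra hcon
  push Not at hcon
  obtain ⟨q, hq⟩ := hcon
  have hker : T.π.ker ≤ H := by
    by_contra hnot
    have hlt : H < H ⊔ T.π.ker := by
      refine lt_of_le_of_ne le_sup_left ?_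
      intro h
      apply hnot
      rw [h]
      exact le_sup_right
    have htop := hH.2 _ hlt
    obtain ⟨a, ha, haq⟩ := T.πsurj q
    have haT : a ∈ H ⊔ T.π.ker := by rw [htop]; trivial
    rw [Subgroup.mem_sup_of_normal_right] at haT
    obtain ⟨h, hh, k, hk, rfl⟩ := haT
    apply hq h hh
    rw [← haq, map_mul, MonoidHom.mem_ker.1 hk, mul_one]
  obtain ⟨n, hn, hpow⟩ := coatom_pow H hH (fun x y => hker (by
    rw [MonoidHom.mem_ker]; simp))
  apply hH.1
  rw [Subgroup.eq_top_iff']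
  intro g
  obtain ⟨a, ha, hπ⟩ := T.πsurj (Multiplicative.ofAdd (Multiplicative.toAdd (T.π g) / n))
  have h1 : T.π (a ^ n) = T.π g := by
    rw [map_pow, hπ, ← ofAdd_nsmul]
    have : n • (Multiplicative.toAdd (T.π g) / (n : ℚ)) = Multiplicative.toAdd (T.π g) := by
      rw [nsmul_eq_mul]
      have : (n : ℚ) ≠ 0 := by exact_mod_cast hn.ne'
      field_simp
    rw [this, ofAdd_toAdd]
  have h2 : g * (a ^ n)⁻¹ ∈ H := hker (by rw [MonoidHom.mem_ker, map_mul, map_inv, h1]; simp)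
  have := H.mul_mem h2 (hpow a)
  simpa using this

theorem not_coatom_of_C_le (H : Subgroup G) (hC : T.A ⊓ T.B ≤ H) : ¬ IsCoatom H := by
  intro hH
  refine T.not_coatom_of_A_le H ?_ hH
  intro a ha
  obtain ⟨h, hh, hπ⟩ := T.map_π_top H hH (T.π a)
  have : ∃ a' ∈ T.A, a' ∈ H ∧ T.π a' = T.π a := by
    rcases RW.exists_of_gen T.gen h with ⟨h1, h2⟩ | ⟨i, j, n, hw⟩
    · exact ⟨h, h1, hh, hπ⟩
    · obtain ⟨a', h1, h2, h3⟩ := T.lemQ n H hC i j n h le_rfl hw hh
      exact ⟨a', h1, h2, h3.trans hπ⟩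
  obtain ⟨a', h1, h2, h3⟩ := this
  have h4 : a'⁻¹ * a ∈ T.A := T.A.mul_mem (T.A.inv_mem h1) ha
  have h5 : a'⁻¹ * a ∈ T.B := T.πA _ h4 (by rw [map_mul, map_inv, h3]; simp)
  have := H.mul_mem h2 (hC ⟨h4, h5⟩)
  simpa using this

/-- Every element is conjugate into a factor or is conjugate to a cyclically reduced element. -/
theorem conj_reduce (g : G) : ∃ x : G, (x⁻¹ * g * x ∈ T.A ∨ x⁻¹ * g * x ∈ T.B) ∨
    ∃ n, RW T.A T.B true false n (x⁻¹ * g * x) := by
  rcases RW.exists_of_gen T.gen g with ⟨h1, h2⟩ | ⟨i, j, n, hw⟩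
  · exact ⟨1, Or.inl (Or.inl (by simpa using h1))⟩
  · induction n using Nat.strong_induction_on generalizing i j g with
    | _ n ih =>
    obtain ⟨n, rfl⟩ : ∃ n', n = n' + 1 := ⟨n - 1, by have := hw.pos; omega⟩
    cases n with
    | zero =>
      obtain ⟨-, h1⟩ := hw.of_one
      cases i with
      | true =>
        have h2 : g ∈ T.A := h1.1
        exact ⟨1, Or.inl (Or.inl (by simpa using h2))⟩
      | false =>
        have h2 : g ∈ T.B := h1.1
        exact ⟨1, Or.inl (Or.inr (by simpa using h2))⟩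
    | succ n =>
      obtain ⟨s, w', rfl, h1, h2⟩ := hw.uncons
      by_cases hij : j = !i
      · subst hij
        cases i with
        | true => exact ⟨1, Or.inr ⟨n + 2, by simpa using hw⟩⟩
        | false =>
          refine ⟨s, Or.inr ⟨n + 2, ?_⟩⟩
          have := h2.snoc (g := s) (by rw [Bool.not_not]; exact h1)
          simpa using this
      · have hij' : j = i := by cases i <;> cases j <;> simp_all
        subst hij'
        -- conjugate by the first letter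
        cases n with
        | zero =>
          obtain ⟨h3, -⟩ := h2.of_one
          cases j <;> simp at h3
        | succ n =>
          obtain ⟨w3, t, rfl, h3, h4⟩ := h2.unsnoc
          have hts : t * s ∈ SS T.A T.B j := (SS T.A T.B j).mul_mem h4.1 h1.1
          have hconj : s⁻¹ * (s * (w3 * t)) * s = w3 * (t * s) := by group
          by_cases h5 : t * s ∈ SS T.A T.B (!j)
          · have hA : t * s ∈ T.A := by cases j <;> assumption
            have hB : t * s ∈ T.B := by cases j <;> assumption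
            have h6 := h3.mul_C hA hB
            obtain ⟨x, hx⟩ := ih (n + 1) (by omega) _ _ _ h6
            refine ⟨s * x, ?_⟩
            have h7 : (s * x)⁻¹ * (s * (w3 * t)) * (s * x) = x⁻¹ * (w3 * (t * s)) * x := by group
            rw [h7]; exact hx
          · have h6 : RW T.A T.B (!j) j (n + 1 + 1) (w3 * (t * s)) := by
              have := h3.snoc (g := t * s) (by rw [Bool.not_not]; exact ⟨hts, h5⟩)
              rwa [Bool.not_not] at this
            obtain ⟨x, hx⟩ := ih (n + 1 + 1) (by omega) _ _ _ h6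
            refine ⟨s * x, ?_⟩
            have h7 : (s * x)⁻¹ * (s * (w3 * t)) * (s * x) = x⁻¹ * (w3 * (t * s)) * x := by group
            rw [h7]; exact hx

theorem cj_coatom (x : G) (H : Subgroup G) (hH : IsCoatom H) : IsCoatom (cj x H) := by
  have h1 : ∀ K : Subgroup G, cj x⁻¹ (cj x K) = K := by
    intro K
    ext g
    rw [mem_cj, mem_cj]
    simp [mul_assoc]
  have h2 : ∀ K : Subgroup G, cj x (cj x⁻¹ K) = K := by
    intro K
    ext g
    rw [mem_cj, mem_cj]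
    simp [mul_assoc]
  have hmono : ∀ (y : G) (K L : Subgroup G), K ≤ L → cj y K ≤ cj y L := by
    intro y K L h g hg
    exact h hg
  constructor
  · intro h
    apply hH.1
    rw [← h1 H, h]
    ext g; simp [mem_cj]
  · intro K hK
    have h3 : H < cj x⁻¹ K := by
      refine lt_of_le_of_ne ?_ ?_
      · have := hmono x⁻¹ _ _ hK.le
        rwa [h1] at this
      · intro h
        apply hK.ne
        rw [h, h2]
    have h4 := hH.2 _ h3
    rw [← h2 K, h4]
    ext g; simp [mem_cj]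

theorem RW_Γ {i j : Bool} {n : ℕ} {w : G} (h : RW T.A T.B i j n w) :
    ∃ m0, ∀ m ≥ m0, w ∈ T.Γ m ∧ RW (T.A ⊓ T.Γ m) (T.B ⊓ T.Γ m) i j n w := by
  have hl : ∀ (i : Bool) (g : G), Lt T.A T.B i g → ∃ m0, ∀ m ≥ m0, g ∈ T.Γ m ∧
      Lt (T.A ⊓ T.Γ m) (T.B ⊓ T.Γ m) i g := by
    intro i g hg
    obtain ⟨m0, hm0⟩ := T.cover g
    refine ⟨m0, fun m hm => ?_⟩
    have hgm : g ∈ T.Γ m := T.mono hm hm0
    refine ⟨hgm, ?_⟩
    cases i with
    | true => exact ⟨⟨hg.1, hgm⟩, fun h' => hg.2 h'.1⟩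
    | false => exact ⟨⟨hg.1, hgm⟩, fun h' => hg.2 h'.1⟩
  induction h with
  | one i g h =>
    obtain ⟨m0, hm0⟩ := hl i g h
    exact ⟨m0, fun m hm => ⟨(hm0 m hm).1, RW.one i g (hm0 m hm).2⟩⟩
  | cons i j n g w h hw ih =>
    obtain ⟨m0, hm0⟩ := hl i g h
    obtain ⟨m1, hm1⟩ := ih
    refine ⟨max m0 m1, fun m hm => ?_⟩
    have h1 := hm0 m (le_trans (le_max_left _ _) hm)
    have h2 := hm1 m (le_trans (le_max_right _ _) hm)
    exact ⟨(T.Γ m).mul_mem h1.1 h2.1, RW.cons i j n g w h1.2 h2.2⟩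

/-- The subgroup generated by `Γ m` and all later `E k`. -/
def KK (m : ℕ) : Subgroup G := T.Γ m ⊔ ⨆ k ≥ m, T.E k

theorem KK_ne_top (m : ℕ) : T.KK m ≠ ⊤ := by
  intro htop
  obtain ⟨e, he, b, hb, hbe⟩ := T.Y m
  apply hbe
  have hcent : T.KK m ≤ Subgroup.centralizer {e} := by
    rw [KK, sup_le_iff]
    constructor
    · intro x hx
      rw [Subgroup.mem_centralizer_singleton_iff]
      exact (T.comm m e he x hx).symm
    · refine iSup₂_le fun k hk x hx => ?_
      rw [Subgroup.mem_centralizer_singleton_iff]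
      exact T.toChain.Ecomm k m x e hx he
  have : b ∈ Subgroup.centralizer {e} := hcent (by rw [htop]; trivial)
  rw [Subgroup.mem_centralizer_singleton_iff] at this
  rw [this]
  simpa using (T.hEC m he).1

theorem KK_cover (x : G) (m : ℕ) : ∃ m' ≥ m, x ∈ T.KK m' := by
  obtain ⟨m0, hm0⟩ := T.cover x
  exact ⟨max m m0, le_max_left _ _, Subgroup.mem_sup_left (T.mono (le_max_right _ _) hm0)⟩

theorem mem_sup_E {k : ℕ} {x : G} (hx : x ∈ T.Γ k ⊔ T.E k) : ∃ γ ∈ T.Γ k, ∃ e ∈ T.E k,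
    x = γ * e := by
  rw [← Subgroup.closure_eq (T.Γ k), ← Subgroup.closure_eq (T.E k), ← Subgroup.closure_union] at hx
  induction hx using Subgroup.closure_induction with
  | mem x hx =>
    rcases hx with hx | hx
    · exact ⟨x, hx, 1, (T.E k).one_mem, by simp⟩
    · exact ⟨1, (T.Γ k).one_mem, x, hx, by simp⟩
  | one => exact ⟨1, (T.Γ k).one_mem, 1, (T.E k).one_mem, by simp⟩
  | mul x y _ _ hx hy =>
    obtain ⟨γ, hγ, e, he, rfl⟩ := hx
    obtain ⟨γ', hγ', e', he', rfl⟩ := hy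
    refine ⟨γ * γ', (T.Γ k).mul_mem hγ hγ', e * e', (T.E k).mul_mem he he', ?_⟩
    have := T.comm k e he γ' hγ'
    calc γ * e * (γ' * e') = γ * (e * γ') * e' := by group
      _ = _ := by rw [this]; group
  | inv x _ hx =>
    obtain ⟨γ, hγ, e, he, rfl⟩ := hx
    refine ⟨γ⁻¹, (T.Γ k).inv_mem hγ, e⁻¹, (T.E k).inv_mem he, ?_⟩
    have := T.comm k e⁻¹ ((T.E k).inv_mem he) γ⁻¹ ((T.Γ k).inv_mem hγ)
    rw [mul_inv_rev, this]

theorem coatom_exists_g (H : Subgroup G) (hH : IsCoatom H) (k0 : ℕ)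
    (hE : ∀ k ≥ k0, T.E k ≤ H) (m1 : ℕ) : ∃ m ≥ m1, ∃ g ∈ H, g ∈ T.Γ (m + 1) ∧
      g ∉ T.Γ m ⊔ T.E m := by
  by_contra hcon
  push Not at hcon
  have hle : ∀ m ≥ max m1 k0, H ≤ T.KK m := by
    intro m hm h hh
    have key : ∀ n, ∀ h ∈ H, h ∈ T.Γ (m + n) → h ∈ T.KK m := by
      intro n
      induction n with
      | zero => intro h _ h'; exact Subgroup.mem_sup_left h'
      | succ n ih =>
        intro h hh h'
        have h1 := hcon (m + n) (le_trans (le_trans (le_max_left _ _) hm) (by omega)) h hh h'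
        obtain ⟨γ, hγ, e, he, rfl⟩ := T.mem_sup_E h1
        have heH : e ∈ H := hE (m + n) (le_trans (le_trans (le_max_right _ _) hm) (by omega)) he
        have hγH : γ ∈ H := (H.mul_mem_cancel_right heH).1 hh
        refine (T.KK m).mul_mem (ih γ hγH hγ) ?_
        apply Subgroup.mem_sup_right
        exact (le_iSup₂ (f := fun k (_ : k ≥ m) => T.E k) (m + n) (by omega)) he
    obtain ⟨m', hm'⟩ := T.cover h
    exact key m' h hh (T.mono (by omega) hm')
  have heq : ∀ m ≥ max m1 k0, H = T.KK m := by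
    intro m hm
    rcases eq_or_lt_of_le (hle m hm) with h | h
    · exact h
    · exact absurd (hH.2 _ h) (T.KK_ne_top m)
  apply hH.1
  rw [Subgroup.eq_top_iff']
  intro x
  obtain ⟨m', hm', hx⟩ := T.KK_cover x (max m1 k0)
  rw [heq m' hm']
  exact hx

theorem C_le_of_cyc (H : Subgroup G) (hH : IsCoatom H) (k0 : ℕ)
    (hE : ∀ k ≥ k0, T.E k ≤ H) (y : G) (n : ℕ) (hy : RW T.A T.B true false n y) (hyH : y ∈ H) :
    T.A ⊓ T.B ≤ H := by
  intro c hc
  obtain ⟨m0, hm0⟩ := T.RW_Γ hy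
  obtain ⟨m1, hm1⟩ := T.cover c
  obtain ⟨m, hm, g, hg, hg1, hg2⟩ := T.coatom_exists_g H hH k0 hE (max k0 (max m0 m1))
  have hk : k0 ≤ m := le_trans (le_max_left _ _) hm
  have hm0' : m0 ≤ m := le_trans (le_trans (le_max_left _ _) (le_max_right _ _)) hm
  have hm1' : m1 ≤ m := le_trans (le_trans (le_max_right _ _) (le_max_right _ _)) hm
  have h1 := T.V m y n (hm0 m hm0').2 g hg1 hg2 c (T.mono (by omega) hm1) hc.1 hc.2
  refine (Subgroup.closure_le H).2 ?_ h1
  rintro x (hx | hx)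
  · rcases hx with rfl | hx
    · exact hyH
    · rw [Set.mem_singleton_iff] at hx; rw [hx]; exact hg
  · exact hE m hk hx

theorem cj_E (x : G) (H : Subgroup G) (k0 : ℕ) (hE : ∀ k ≥ k0, T.E k ≤ H) :
    ∃ k1, ∀ k ≥ k1, T.E k ≤ cj x H := by
  obtain ⟨m, hm⟩ := T.cover x
  refine ⟨max k0 m, fun k hk e he => ?_⟩
  rw [mem_cj]
  have h1 := T.comm k e he x (T.mono (le_trans (le_max_right _ _) hk) hm)
  rw [← h1]
  simpa using hE k (le_trans (le_max_left _ _) hk) he

theorem A_not_coatom (H : Subgroup G) (hA : H ≤ T.A) : ¬ IsCoatom H := by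
  intro hH
  have h1 : T.A < T.A ⊔ T.β 1 := by
    refine lt_of_le_of_ne le_sup_left ?_
    intro h
    apply (T.βlt 0).not_ge
    intro b hb
    rw [T.β0]
    refine ⟨?_, T.β_le_B 1 hb⟩
    rw [h]
    exact Subgroup.mem_sup_right hb
  exact T.A_sup_β_ne_top 1 (hH.2 _ (lt_of_le_of_lt hA h1))

theorem hd (k0 : ℕ) (H : Subgroup G) (hE : ∀ k ≥ k0, T.E k ≤ H) : ¬ IsCoatom H := by
  intro hH
  -- first an element with nontrivial image
  obtain ⟨h, hh, hπ⟩ := T.map_π_top H hH (Multiplicative.ofAdd 1)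
  have hπ1 : T.π h ≠ 1 := by
    intro h1
    rw [h1] at hπ
    have : (0 : ℚ) = 1 := congrArg Multiplicative.toAdd hπ
    norm_num at this
  obtain ⟨x, hx⟩ := T.conj_reduce h
  have hπx : T.π (x⁻¹ * h * x) ≠ 1 := by
    rw [map_mul, map_mul, map_inv, mul_comm (T.π x)⁻¹, mul_assoc, inv_mul_cancel, mul_one]
    exact hπ1
  -- replace H by a conjugate
  obtain ⟨k1, hE1⟩ := T.cj_E x H k0 hE
  have hH1 := cj_coatom x H hH
  have hmem : x⁻¹ * h * x ∈ cj x H := by
    rw [mem_cj]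
    have : x * (x⁻¹ * h * x) * x⁻¹ = h := by group
    rw [this]; exact hh
  have hfin : ∀ (K : Subgroup G), IsCoatom K → ∀ k, (∀ l ≥ k, T.E l ≤ K) → ∀ n y,
      RW T.A T.B true false n y → y ∈ K → False := by
    intro K hK k hEk n y hy hyK
    exact T.not_coatom_of_C_le K (T.C_le_of_cyc K hK k hEk y n hy hyK) hK
  rcases hx with (hxA | hxB) | ⟨n, hn⟩
  · -- elliptic of type A
    set a := x⁻¹ * h * x with ha
    have haB : a ∉ T.B := fun h => hπx (T.πB a h)
    have hKA : ¬ cj x H ≤ T.A := fun h => T.A_not_coatom _ h hH1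
    obtain ⟨k, hk, hkA⟩ := Set.not_subset.1 hKA
    -- write k = a0 * k' * a1
    have hkdec : ∃ a0 ∈ T.A, ∃ a1 ∈ T.A, ∃ m k', k = a0 * k' * a1 ∧
        RW T.A T.B false false m k' := by
      rcases RW.exists_of_gen T.gen k with ⟨h1, -⟩ | ⟨i, j, m, hw⟩
      · exact absurd h1 hkA
      · -- strip the first letter
        have hstrip : ∃ a0 ∈ T.A, ∃ m' k', k = a0 * k' ∧ RW T.A T.B false j m' k' := by
          cases i with
          | false => exact ⟨1, T.A.one_mem, m, k, by simp, hw⟩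
          | true =>
            obtain ⟨m, rfl⟩ : ∃ n', m = n' + 1 := ⟨m - 1, by have := hw.pos; omega⟩
            cases m with
            | zero => exact absurd hw.of_one.2.1 hkA
            | succ m =>
              obtain ⟨s, w', h1, h2, h3⟩ := hw.uncons
              exact ⟨s, h2.1, m + 1, w', h1, h3⟩
        obtain ⟨a0, ha0, m', k', hk', hw'⟩ := hstrip
        cases j with
        | false => exact ⟨a0, ha0, 1, T.A.one_mem, m', k', by simp [hk'], hw'⟩
        | true =>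
          obtain ⟨m', rfl⟩ : ∃ n', m' = n' + 1 := ⟨m' - 1, by have := hw'.pos; omega⟩
          cases m' with
          | zero =>
            obtain ⟨h1, -⟩ := hw'.of_one
            simp at h1
          | succ m' =>
            obtain ⟨w'', s, h1, h2, h3⟩ := hw'.unsnoc
            exact ⟨a0, ha0, s, h3.1, m' + 1, w'', by rw [hk', h1, mul_assoc], h2⟩
    obtain ⟨a0, ha0, a1, ha1, m, k', hk', hw'⟩ := hkdec
    -- the hyperbolic element
    have hconjA : ∀ t ∈ T.A, t * a * t⁻¹ ∈ T.A ∧ t * a * t⁻¹ ∉ T.B := by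
      intro t ht
      refine ⟨T.A.mul_mem (T.A.mul_mem ht hxA) (T.A.inv_mem ht), fun h => ?_⟩
      have := T.πB _ h
      rw [map_mul, map_mul, map_inv, mul_comm (T.π t), mul_assoc, mul_inv_cancel, mul_one] at this
      exact hπx this
    -- y0 = a * (k⁻¹ a k) in cj x H, conjugated by a1
    have hy0 : a * (k⁻¹ * a * k) ∈ cj x H :=
      (cj x H).mul_mem hmem ((cj x H).mul_mem ((cj x H).mul_mem ((cj x H).inv_mem hk) hmem) hk)
    have hconj : a1 * (a * (k⁻¹ * a * k)) * a1⁻¹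
        = (a1 * a * a1⁻¹) * (k'⁻¹ * ((a0⁻¹ * a * a0) * k')) := by
      rw [hk']; group
    have h1 := hconjA a1 ha1
    have h2 := hconjA a0⁻¹ (T.A.inv_mem ha0)
    rw [inv_inv] at h2
    have hr1 : RW T.A T.B true false (m + 1) ((a0⁻¹ * a * a0) * k') :=
      RW.cons true false m _ k' ⟨h2.1, h2.2⟩ hw'
    have hr2 : ∃ n, RW T.A T.B false false n (k'⁻¹ * ((a0⁻¹ * a * a0) * k')) := by
      have hinv := hw'.inv
      clear hconj
      -- concatenate
      have hcat : ∀ (i : Bool) (n : ℕ) (u : G), RW T.A T.B i false n u →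
          ∃ n', RW T.A T.B i false n' (u * ((a0⁻¹ * a * a0) * k')) := by
        intro i n u hu
        generalize hjf : false = jf at hu
        induction hu with
        | one i g h =>
          subst hjf
          exact ⟨_, RW.cons false false _ g _ h hr1⟩
        | cons i j n g w h hw ih =>
          obtain ⟨n', hn'⟩ := ih hjf
          exact ⟨n' + 1, by rw [mul_assoc]; exact RW.cons i j n' g _ h hn'⟩
      exact hcat false m _ hinv
    obtain ⟨n2, hr2⟩ := hr2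
    have hr3 : RW T.A T.B true false (n2 + 1)
        ((a1 * a * a1⁻¹) * (k'⁻¹ * ((a0⁻¹ * a * a0) * k'))) :=
      RW.cons true false n2 _ _ ⟨h1.1, h1.2⟩ hr2
    obtain ⟨k2, hE2⟩ := T.cj_E a1⁻¹ (cj x H) k1 hE1
    refine hfin (cj a1⁻¹ (cj x H)) (cj_coatom _ _ hH1) k2 hE2 _ _ hr3 ?_
    rw [← hconj, mem_cj]
    have : a1⁻¹ * (a1 * (a * (k⁻¹ * a * k)) * a1⁻¹) * a1⁻¹⁻¹ = a * (k⁻¹ * a * k) := by group
    rw [this]
    exact hy0
  · exact hπx (T.πB _ hxB)
  · exact hfin (cj x H) hH1 k1 hE1 n _ hn hmem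

theorem he (k : ℕ) (N : Subgroup G) (hN : N.Normal)
    (hEN : ∀ e ∈ T.E k, ∀ x, e * x * e⁻¹ * x⁻¹ ∈ N) :
    (∀ x y, x * y * x⁻¹ * y⁻¹ ∈ N) ∧ ∀ n > 0, ∀ x, ∃ y, y ^ n * x⁻¹ ∈ N := by
  -- a hyperbolic element of N
  obtain ⟨e, he, b, hb, hbe⟩ := T.Y k
  obtain ⟨a, ha, haB⟩ := T.exists_A_not_B
  have heC := T.hEC k he
  have hebB : Lt T.A T.B false (b * e * b⁻¹) :=
    ⟨T.B.mul_mem (T.B.mul_mem hb heC.2) (T.B.inv_mem hb), hbe⟩
  have haL : Lt T.A T.B true a := ⟨ha, haB⟩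
  obtain ⟨y, n0, hyN, hy⟩ : ∃ y n0, y ∈ N ∧ RW T.A T.B true false n0 y := by
    refine ⟨a * ((b * e * b⁻¹) * (a⁻¹ * (b * e * b⁻¹)⁻¹)), 4, ?_, ?_⟩
    · have h6 := N.inv_mem (hEN e he (b⁻¹ * a * b))
      have h7 := hN.conj_mem _ h6 b
      have h8 : b * (e * (b⁻¹ * a * b) * e⁻¹ * (b⁻¹ * a * b)⁻¹)⁻¹ * b⁻¹
          = a * ((b * e * b⁻¹) * (a⁻¹ * (b * e * b⁻¹)⁻¹)) := by group
      rw [h8] at h7
      exact h7
    · refine RW.cons true false 3 _ _ haL (RW.cons false false 2 _ _ hebB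
        (RW.cons true false 1 _ _ haL.inv (RW.one false _ hebB.inv)))
  have hy1 : y ≠ 1 := hy.ne_one T.univ
  obtain ⟨m0, hm0⟩ := T.RW_Γ hy
  -- infinitely many m with Γ (m+1) not in N_m
  have hinf : ∀ m1, ∃ m ≥ m1, ∃ x ∈ T.Γ (m + 1), x ∉ T.Γ m ⊔ T.E m := by
    intro m1
    by_contra hcon
    push Not at hcon
    apply T.KK_ne_top m1
    rw [Subgroup.eq_top_iff']
    intro h
    have key : ∀ n, ∀ h ∈ T.Γ (m1 + n), h ∈ T.KK m1 := by
      intro n
      induction n with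
      | zero => intro h h'; exact Subgroup.mem_sup_left h'
      | succ n ih =>
        intro h h'
        obtain ⟨γ, hγ, e, he, rfl⟩ := T.mem_sup_E (hcon (m1 + n) (by omega) h h')
        refine (T.KK m1).mul_mem (ih γ hγ) ?_
        apply Subgroup.mem_sup_right
        exact (le_iSup₂ (f := fun k (_ : k ≥ m1) => T.E k) (m1 + n) (by omega)) he
    obtain ⟨m', hm'⟩ := T.cover h
    exact key m' h (T.mono (by omega) hm')
  -- every element of C is in N E_m for infinitely many m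
  have hC : ∀ c ∈ T.A ⊓ T.B, ∀ m1, ∃ m ≥ m1, ∃ e ∈ T.E m, c * e⁻¹ ∈ N := by
    intro c hc m1
    obtain ⟨m2, hm2⟩ := T.cover c
    obtain ⟨m, hm, x, hx, hx'⟩ := hinf (max m1 (max m0 m2))
    have h1 : m1 ≤ m := le_trans (le_max_left _ _) hm
    have h2 : m0 ≤ m := le_trans (le_trans (le_max_left _ _) (le_max_right _ _)) hm
    have h3 : m2 ≤ m := le_trans (le_trans (le_max_right _ _) (le_max_right _ _)) hm
    have hyΓ : y ∈ T.Γ m := (hm0 m h2).1
    have hg : x * y * x⁻¹ ∉ T.Γ m ⊔ T.E m := fun h =>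
      hy1 (T.W m x hx hx' y (Subgroup.mem_sup_left hyΓ) h)
    have hgΓ : x * y * x⁻¹ ∈ T.Γ (m + 1) :=
      (T.Γ (m + 1)).mul_mem ((T.Γ (m + 1)).mul_mem hx (T.mono (by omega) hyΓ))
        ((T.Γ (m + 1)).inv_mem hx)
    have hgN : x * y * x⁻¹ ∈ N := hN.conj_mem y hyN x
    have hcl := T.V m y n0 (hm0 m h2).2 _ hgΓ hg c (T.mono (by omega) hm2) hc.1 hc.2
    refine ⟨m, h1, ?_⟩
    have hle : Subgroup.closure ({y, x * y * x⁻¹} ∪ (T.E m : Set G)) ≤ N ⊔ T.E m := by
      rw [Subgroup.closure_le]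
      rintro z (hz | hz)
      · rcases hz with rfl | hz
        · exact Subgroup.mem_sup_left hyN
        · rw [Set.mem_singleton_iff] at hz
          rw [hz]; exact Subgroup.mem_sup_left hgN
      · exact Subgroup.mem_sup_right hz
    have := hle hcl
    rw [Subgroup.mem_sup_of_normal_left] at this
    obtain ⟨n, hn, e, he, rfl⟩ := this
    exact ⟨e, he, by simpa using hn⟩
  -- so C is central modulo N
  have hCcent : ∀ c ∈ T.A ⊓ T.B, ∀ x : G, c * x * c⁻¹ * x⁻¹ ∈ N := by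
    intro c hc x
    obtain ⟨m1, hm1⟩ := T.cover x
    obtain ⟨m, hm, e, he, hce⟩ := hC c hc m1
    have hcomm := T.comm m e he x (T.mono hm hm1)
    have h1 : c * x * c⁻¹ * x⁻¹ = (c * e⁻¹) * (x * (c * e⁻¹)⁻¹ * x⁻¹) := by
      have h2 : x * (c * e⁻¹)⁻¹ * x⁻¹ = e * x * c⁻¹ * x⁻¹ := by
        rw [hcomm]; group
      rw [h2]; group
    rw [h1]
    exact N.mul_mem hce (hN.conj_mem _ (N.inv_mem hce) x)
  set q := QuotientGroup.mk' N with hq
  have hqN : ∀ x y : G, x * y⁻¹ ∈ N → q x = q y := by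
    intro x y h
    have : q (x * y⁻¹) = 1 := (QuotientGroup.eq_one_iff _).2 h
    rw [map_mul, map_inv, mul_inv_eq_one] at this
    exact this
  have hqN' : ∀ x : G, q x = 1 → x ∈ N := fun x h => (QuotientGroup.eq_one_iff _).1 h
  have hqc : ∀ c ∈ T.A ⊓ T.B, ∀ x : G, q c * q x = q x * q c := by
    intro c hc x
    rw [← map_mul, ← map_mul]
    apply hqN
    have := hCcent c hc x
    rw [mul_inv_rev, ← mul_assoc]
    exact this
  -- B collapses to C modulo N
  have hBC : ∀ l, ∀ b ∈ T.β (l + 1), b ∉ T.β l → ∀ b2 ∈ T.β (l + 1), b2 ∉ T.β l →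
      ∃ c ∈ T.A ⊓ T.B, q b2 = q c * q b := by
    intro l b hb hb' b2 hb2 hb2'
    obtain ⟨c, hc, c', hc', h⟩ := T.U l b hb hb' b2 hb2 hb2' true 1 a (RW.one true a haL)
    refine ⟨c * c', (T.A ⊓ T.B).mul_mem hc hc', ?_⟩
    have h1 := congrArg q h
    rw [map_mul, map_mul, map_mul, map_mul, mul_assoc, mul_assoc, ← hqc c' hc' a, ← mul_assoc (q b),
      ← hqc c' hc' b, ← mul_assoc, ← mul_assoc] at h1
    have h2 := mul_right_cancel h1
    rw [h2, map_mul]
  have hβC : ∀ b ∈ T.B, ∃ c ∈ T.A ⊓ T.B, q b = q c := by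
    intro b hb
    obtain ⟨j, hj⟩ := (T.βB b).1 hb
    obtain ⟨u, hu, hu'⟩ := Set.not_subset.1 (T.βlt j).not_ge
    have h1 : b * u ∈ T.β (j + 1) := (T.β (j + 1)).mul_mem ((T.βlt j).le hj) hu
    have h2 : b * u ∉ T.β j := fun h => hu' (((T.β j).mul_mem_cancel_left hj).1 h)
    obtain ⟨c, hc, h3⟩ := hBC j u hu hu' (b * u) h1 h2
    rw [map_mul] at h3
    exact ⟨c, hc, mul_right_cancel h3⟩
  have hGA : ∀ x : G, ∃ a ∈ T.A, q x = q a := by
    intro x
    have hle : T.A ⊔ T.B ≤ (T.A.map q).comap q := by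
      rw [sup_le_iff]
      constructor
      · intro a ha; exact ⟨a, ha, rfl⟩
      · intro b hb
        obtain ⟨c, hc, h⟩ := hβC b hb
        exact ⟨c, hc.1, h.symm⟩
    have hx : x ∈ T.A ⊔ T.B := by rw [T.gen]; trivial
    obtain ⟨a, ha, h⟩ := hle hx
    exact ⟨a, ha, h.symm⟩
  have hker : ∀ a ∈ T.A, ∀ a' ∈ T.A, T.π a = T.π a' → ∃ c ∈ T.A ⊓ T.B, a = a' * c := by
    intro a ha a' ha' h
    have h1 : a'⁻¹ * a ∈ T.A := T.A.mul_mem (T.A.inv_mem ha') ha
    exact ⟨a'⁻¹ * a, ⟨h1, T.πA _ h1 (by rw [map_mul, map_inv, h]; simp)⟩, by simp⟩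
  have hAcomm : ∀ a ∈ T.A, ∀ a' ∈ T.A, q a * q a' = q a' * q a := by
    intro a ha a' ha'
    set r := Multiplicative.toAdd (T.π a) with hr
    set r' := Multiplicative.toAdd (T.π a') with hr'
    obtain ⟨t, ht, htπ⟩ := T.πsurj (Multiplicative.ofAdd ((1 : ℚ) / (r.den * r'.den)))
    have hd : (r.den : ℚ) ≠ 0 := by exact_mod_cast r.den_nz
    have hd' : (r'.den : ℚ) ≠ 0 := by exact_mod_cast r'.den_nz
    have h1 : T.π a = T.π (t ^ (r.num * r'.den)) := by
      rw [map_zpow, htπ, ← ofAdd_zsmul]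
      apply Multiplicative.toAdd.injective
      rw [toAdd_ofAdd, ← hr, zsmul_eq_mul]
      push_cast
      field_simp
      exact (Rat.mul_den_eq_num r)
    have h2 : T.π a' = T.π (t ^ (r'.num * r.den)) := by
      rw [map_zpow, htπ, ← ofAdd_zsmul]
      apply Multiplicative.toAdd.injective
      rw [toAdd_ofAdd, ← hr', zsmul_eq_mul]
      push_cast
      field_simp
      exact (Rat.mul_den_eq_num r')
    obtain ⟨c, hc, h3⟩ := hker a ha _ (T.A.zpow_mem ht _) h1
    obtain ⟨c', hc', h4⟩ := hker a' ha' _ (T.A.zpow_mem ht _) h2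
    rw [h3, h4]
    have e1 := hqc c hc
    have e2 := hqc c' hc'
    simp only [map_mul]
    have e3 : q (t ^ (r.num * ↑r'.den)) * q (t ^ (r'.num * ↑r.den))
        = q (t ^ (r'.num * ↑r.den)) * q (t ^ (r.num * ↑r'.den)) := by
      rw [← map_mul, ← map_mul, ← zpow_add, ← zpow_add, add_comm]
    calc q (t ^ (r.num * ↑r'.den)) * q c * (q (t ^ (r'.num * ↑r.den)) * q c')
        = q (t ^ (r.num * ↑r'.den)) * (q c * q (t ^ (r'.num * ↑r.den))) * q c' := by group
      _ = (q (t ^ (r.num * ↑r'.den)) * q (t ^ (r'.num * ↑r.den))) * (q c * q c') := by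
          rw [e1]; group
      _ = (q (t ^ (r'.num * ↑r.den)) * q (t ^ (r.num * ↑r'.den))) * (q c' * q c) := by
          rw [e3, e1 c']
      _ = q (t ^ (r'.num * ↑r.den)) * (q (t ^ (r.num * ↑r'.den)) * q c') * q c := by group
      _ = q (t ^ (r'.num * ↑r.den)) * (q c' * q (t ^ (r.num * ↑r'.den))) * q c := by rw [e2]
      _ = _ := by group
  constructor
  · intro x y
    obtain ⟨a1, ha1, h1⟩ := hGA x
    obtain ⟨a2, ha2, h2⟩ := hGA y
    apply hqN'
    rw [map_mul, map_mul, map_mul, map_inv, map_inv, h1, h2, hAcomm a1 ha1 a2 ha2]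
    group
  · intro n hn x
    obtain ⟨a1, ha1, h1⟩ := hGA x
    obtain ⟨t, ht, htπ⟩ := T.πsurj (Multiplicative.ofAdd (Multiplicative.toAdd (T.π a1) / n))
    have hn' : (n : ℚ) ≠ 0 := by exact_mod_cast (Nat.pos_iff_ne_zero.1 hn)
    have h2 : T.π a1 = T.π (t ^ n) := by
      rw [map_pow, htπ, ← ofAdd_nsmul]
      apply Multiplicative.toAdd.injective
      rw [toAdd_ofAdd, nsmul_eq_mul]
      field_simp
    obtain ⟨c, hc, h3⟩ := hker a1 ha1 _ (T.A.pow_mem ht n) h2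
    obtain ⟨m, -, e, he, hce⟩ := hC c hc 0
    obtain ⟨e', he', h4⟩ := T.div m n hn e he
    refine ⟨t * e', ?_⟩
    apply hqN'
    have h5 : q c = q e := hqN _ _ hce
    have h6 : Commute (q t) (q e') := (hqc e' (T.hEC m he') t).symm
    rw [map_mul, map_inv, map_pow, map_mul, h6.mul_pow, h1, h3, map_mul, h5, ← h4, map_pow,
      map_pow]
    group

/-- The negation of the frozen statement follows from the existence of a tower. -/
theorem negation {G : Type} [Group G] [Countable G] (T : Tower G) :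
    ¬ (∀ (G : Bool → Type) [∀ i, Group (G i)] (H : Type) [Group H]
      (φ : ∀ i, H →* G i),
      (∀ i, Function.Injective (φ i)) →
      (∀ i, ¬ Function.Surjective (φ i)) →
      ∃ M : Subgroup (Monoid.PushoutI φ), IsCoatom M) := by
  refine reduction T.toChain T.A T.B T.gen T.univ ?_ ?_ T.hEC T.hd T.he
  · intro h
    obtain ⟨a, ha, haB⟩ := T.exists_A_not_B
    exact haB (h ha)
  · intro h
    obtain ⟨e, he, b, hb, hbe⟩ := T.Y 0
    exact hbe (T.A.mul_mem (T.A.mul_mem (h hb) (T.hEC 0 he).1) (T.A.inv_mem (h hb)))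

end Tower

end Pool.Agent.Helper62.Amal
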